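import Pool.Agent.Y106.LPI.Quad

/-!
# The algebraic degree of the graphs of sums of squares of iterated quadratic shears
-/

open MeasureTheory Set Topology
open scoped ENNReal NNReal RealInnerProductSpace ContDiff MeasureTheory

namespace Pool.Agent.Y106.LPI

open Pool.Agent.Results.MP_bfe3ea_gt.VinbergCone (E)

/-- the polynomial of `hd` -/
noncomputable def HD : (r : ℕ) → MvPolynomial (Fin r) ℝ
  | 0 => 0
  | r + 1 => MvPolynomial.X 0 - (MvPolynomial.rename Fin.succ (HD r)) ^ 2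

/-- the polynomial of `fq` -/
noncomputable def FQ : (r : ℕ) → MvPolynomial (Fin r) ℝ
  | 0 => 0
  | r + 1 => (HD (r + 1)) ^ 2 + MvPolynomial.rename Fin.succ (FQ r)

lemma eval_HD : ∀ (r : ℕ) (x : W r), MvPolynomial.eval x (HD r) = hd r x := by
  intro r
  induction r with
  | zero => intro x; simp [HD, hd]
  | succ r ih =>
    intro x
    rw [HD, hd, map_sub, map_pow, MvPolynomial.eval_X, MvPolynomial.eval_rename]
    have : x ∘ Fin.succ = tw x := rfl
    rw [this, ih]

lemma eval_FQ : ∀ (r : ℕ) (x : W r), MvPolynomial.eval x (FQ r) = fq r 1 x := by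
  intro r
  induction r with
  | zero => intro x; simp [FQ, fq]
  | succ r ih =>
    intro x
    rw [FQ, fq, map_add, map_pow, eval_HD, MvPolynomial.eval_rename]
    have : x ∘ Fin.succ = tw x := rfl
    rw [this, ih, one_mul]

lemma totalDegree_HD : ∀ r : ℕ, 2 * (HD r).totalDegree ≤ 2 ^ r := by
  intro r
  induction r with
  | zero => simp [HD]
  | succ r ih =>
    have h1 : (HD (r + 1)).totalDegree ≤ 2 ^ r := by
      rw [HD]
      refine (MvPolynomial.totalDegree_sub _ _).trans (max_le ?_ ?_)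
      · rw [MvPolynomial.totalDegree_X]
        exact Nat.one_le_two_pow
      · refine (MvPolynomial.totalDegree_pow _ _).trans ?_
        have := MvPolynomial.totalDegree_rename_le Fin.succ (HD r)
        omega
    rw [pow_succ]
    omega

lemma totalDegree_FQ : ∀ r : ℕ, (FQ r).totalDegree ≤ 2 ^ r := by
  intro r
  induction r with
  | zero => simp [FQ]
  | succ r ih =>
    rw [FQ]
    refine (MvPolynomial.totalDegree_add _ _).trans (max_le ?_ ?_)
    · refine (MvPolynomial.totalDegree_pow _ _).trans ?_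
      exact totalDegree_HD (r + 1)
    · have h1 := MvPolynomial.totalDegree_rename_le Fin.succ (FQ r)
      have h2 : 2 ^ r ≤ 2 ^ (r + 1) := Nat.pow_le_pow_right (by norm_num) (by omega)
      omega

/-- the equation of the graph -/
noncomputable def GQ (r : ℕ) : MvPolynomial (Fin (r + 1)) ℝ :=
  MvPolynomial.X 0 - MvPolynomial.rename Fin.succ (FQ r)

lemma totalDegree_GQ_le (r : ℕ) : (GQ r).totalDegree ≤ 2 ^ r := by
  unfold GQ
  refine (MvPolynomial.totalDegree_sub _ _).trans (max_le ?_ ?_)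
  · rw [MvPolynomial.totalDegree_X]
    exact Nat.one_le_two_pow
  · exact (MvPolynomial.totalDegree_rename_le Fin.succ (FQ r)).trans (totalDegree_FQ r)

/-- the last coordinate line -/
noncomputable def ln (r : ℕ) (i : Fin r) : Polynomial ℝ :=
  if (i : ℕ) + 1 = r then Polynomial.X else 0

lemma ln_succ (r : ℕ) : (ln (r + 1)) ∘ Fin.succ = ln r := by
  funext i
  simp [ln]

lemma natDegree_ln (r : ℕ) (i : Fin r) : (ln r i).natDegree ≤ 1 := by
  unfold ln
  split_ifs
  · exact Polynomial.natDegree_X_le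
  · simp

lemma natDegree_HD : ∀ r : ℕ, (MvPolynomial.aeval (ln (r + 1)) (HD (r + 1))).natDegree = 2 ^ r := by
  intro r
  induction r with
  | zero =>
    rw [HD, HD]
    simp [ln]
  | succ r ih =>
    rw [HD, map_sub, map_pow, MvPolynomial.aeval_X, MvPolynomial.aeval_rename, ln_succ]
    have : ln (r + 1 + 1) 0 = 0 := by simp [ln]
    rw [this, zero_sub, Polynomial.natDegree_neg, Polynomial.natDegree_pow, ih, pow_succ]
    ring

lemma natDegree_FQ : ∀ r : ℕ, (MvPolynomial.aeval (ln (r + 1)) (FQ (r + 1))).natDegree =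
    2 ^ (r + 1) := by
  intro r
  rw [FQ, map_add, map_pow, MvPolynomial.aeval_rename, ln_succ]
  have h1 : ((MvPolynomial.aeval (ln (r + 1))) (HD (r + 1)) ^ 2).natDegree = 2 ^ (r + 1) := by
    rw [Polynomial.natDegree_pow, natDegree_HD, pow_succ]
    ring
  have h2 : (MvPolynomial.aeval (ln r) (FQ r)).natDegree ≤ 2 ^ r * 1 :=
    MvPolynomial.aeval_natDegree_le (FQ r) (totalDegree_FQ r) (ln r) (natDegree_ln r)
  rw [Polynomial.natDegree_add_eq_left_of_natDegree_lt, h1]
  rw [h1]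
  have h3 : 2 ^ r < 2 ^ (r + 1) := Nat.pow_lt_pow_right (by norm_num) (by omega)
  omega

lemma totalDegree_GQ {r : ℕ} (hr : r ≠ 0) : (GQ r).totalDegree = 2 ^ r := by
  refine le_antisymm (totalDegree_GQ_le r) ?_
  obtain ⟨r, rfl⟩ := Nat.exists_eq_succ_of_ne_zero hr
  have h1 : (MvPolynomial.aeval (Fin.cons 0 (ln (r + 1)) : Fin (r + 1 + 1) → Polynomial ℝ)
      (GQ (r + 1))).natDegree ≤ (GQ (r + 1)).totalDegree * 1 :=
    MvPolynomial.aeval_natDegree_le (GQ (r + 1)) le_rfl _ (fun i => by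
      refine Fin.cases ?_ (fun i => ?_) i
      · simp
      · simpa using natDegree_ln (r + 1) i)
  have h2 : (MvPolynomial.aeval (Fin.cons 0 (ln (r + 1)) : Fin (r + 1 + 1) → Polynomial ℝ)
      (GQ (r + 1))) = - MvPolynomial.aeval (ln (r + 1)) (FQ (r + 1)) := by
    unfold GQ
    rw [map_sub, MvPolynomial.aeval_X, MvPolynomial.aeval_rename]
    have : (Fin.cons 0 (ln (r + 1)) : Fin (r + 1 + 1) → Polynomial ℝ) ∘ Fin.succ =
        ln (r + 1) := by
      funext i; simp
    rw [this]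
    simp
  rw [h2, Polynomial.natDegree_neg, natDegree_FQ, mul_one] at h1
  exact h1

lemma finSuccEquiv_GQ (r : ℕ) : MvPolynomial.finSuccEquiv ℝ r (GQ r) =
    Polynomial.X - Polynomial.C (FQ r) := by
  unfold GQ
  rw [map_sub, MvPolynomial.finSuccEquiv_X_zero]
  congr 1
  have h1 : ((MvPolynomial.finSuccEquiv ℝ r).toAlgHom.comp (MvPolynomial.rename Fin.succ)) =
      (IsScalarTower.toAlgHom ℝ (MvPolynomial (Fin r) ℝ)
        (Polynomial (MvPolynomial (Fin r) ℝ))) := by
    apply MvPolynomial.algHom_ext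
    intro i
    simp
    exact MvPolynomial.finSuccEquiv_X_succ
  exact DFunLike.congr_fun h1 (FQ r)

/-! ### Coordinates -/

/-- the coordinates `(x, z)`, with `z` the first coordinate -/
noncomputable def Tq (r : ℕ) : E (r + 1) ≃L[ℝ] W r × ℝ :=
  LinearEquiv.toContinuousLinearEquiv
    { toFun := fun x => (fun i => x i.succ, x 0)
      map_add' := fun x y => rfl
      map_smul' := fun c x => rfl
      invFun := fun w => WithLp.toLp 2 (Fin.cons w.2 w.1)
      left_inv := fun x => by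
        ext j
        refine Fin.cases ?_ (fun i => ?_) j <;> simp
      right_inv := fun w => by
        refine Prod.ext (funext fun i => ?_) ?_ <;> simp }

/-- the hypersurface -/
def Mq (r : ℕ) : Set (E (r + 1)) := gM (Tq r) (Dq r) (fq r 1)

lemma mem_Mq {r : ℕ} {x : E (r + 1)} : x ∈ Mq r ↔ (fun i => x i.succ) ∈ Dq r ∧
    x 0 = fq r 1 (fun i => x i.succ) := Iff.rfl

lemma eval_GQ {r : ℕ} {x : E (r + 1)} (hx : x ∈ Mq r) :
    MvPolynomial.eval (fun i => x i) (GQ r) = 0 := by
  unfold GQ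
  rw [map_sub, MvPolynomial.eval_X, MvPolynomial.eval_rename, (mem_Mq.mp hx).2]
  have : (fun i => x i) ∘ Fin.succ = fun i : Fin r => x i.succ := rfl
  rw [this, eval_FQ, sub_self]

lemma GQ_dvd {r : ℕ} (Q : MvPolynomial (Fin (r + 1)) ℝ)
    (h0 : ∀ x ∈ Mq r, MvPolynomial.eval (fun i => x i) Q = 0) : GQ r ∣ Q := by
  have h1 : (Polynomial.X - Polynomial.C (FQ r)) ∣ MvPolynomial.finSuccEquiv ℝ r Q := by
    rw [Polynomial.dvd_iff_isRoot, Polynomial.IsRoot.def]
    apply MvPolynomial.funext_set (fun _ => Ioo (-(1 / 16) : ℝ) (1 / 16))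
      (fun _ => Ioo_infinite (by norm_num))
    intro x hx
    have hxD : x ∈ Dq r := fun i => abs_lt.mpr (hx i (mem_univ i))
    rw [map_zero]
    have h2 := h0 (WithLp.toLp 2 (Fin.cons (fq r 1 x) x)) (by
      rw [mem_Mq]
      simpa using hxD)
    have h3 := MvPolynomial.eval_eq_eval_mv_eval' x (fq r 1 x) Q
    have h4 : MvPolynomial.eval (fun i => (WithLp.toLp 2
        (Fin.cons (fq r 1 x) x : Fin (r + 1) → ℝ) : E (r + 1)) i) Q =
        MvPolynomial.eval (Fin.cons (fq r 1 x) x : Fin (r + 1) → ℝ) Q := rfl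
    rw [h4, h3, ← eval_FQ r x] at h2
    rw [← h2]
    generalize MvPolynomial.finSuccEquiv ℝ r Q = P
    rw [Polynomial.eval_map, Polynomial.eval₂_hom]
  rw [← finSuccEquiv_GQ] at h1
  have h2 := map_dvd (MvPolynomial.finSuccEquiv ℝ r).symm h1
  simpa using h2

lemma GQ_ne_zero {r : ℕ} (hr : r ≠ 0) : GQ r ≠ 0 := by
  intro h
  have h1 := totalDegree_GQ hr
  rw [h, MvPolynomial.totalDegree_zero] at h1
  have : 0 < 2 ^ r := by positivity
  omega

/-- the least degree of a nonzero polynomial vanishing on the hypersurface is `2 ^ r` -/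
theorem isLeast_degree_q {r : ℕ} (hr : r ≠ 0) : IsLeast {d : ℕ |
    ∃ Q : MvPolynomial (Fin (r + 1)) ℝ, Q ≠ 0 ∧ Q.totalDegree = d ∧
      ∀ x ∈ Mq r, MvPolynomial.eval (fun i => x i) Q = 0} (2 ^ r) := by
  constructor
  · exact ⟨GQ r, GQ_ne_zero hr, totalDegree_GQ hr, fun x hx => eval_GQ hx⟩
  · rintro d ⟨Q, hQ, rfl, h0⟩
    obtain ⟨R, rfl⟩ := GQ_dvd Q h0
    have hR : R ≠ 0 := right_ne_zero_of_mul hQ
    rw [MvPolynomial.totalDegree_mul_of_isDomain (GQ_ne_zero hr) hR, totalDegree_GQ hr]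
    omega

end Pool.Agent.Y106.LPI
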