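import Pool.Agent.Y106.LPI.Ind

/-!
# The algebraic degree of the graphs
-/

open MeasureTheory Set Topology
open scoped ENNReal NNReal RealInnerProductSpace ContDiff MeasureTheory

namespace Pool.Agent.Y106.LPI

open Pool.Agent.Results.MP_bfe3ea_gt.VinbergCone (E)

lemma totalDegree_aeval_le {σ τ : Type*} (f : σ → MvPolynomial τ ℝ)
    (hf : ∀ i, (f i).totalDegree ≤ 1) (Q : MvPolynomial σ ℝ) :
    (MvPolynomial.aeval f Q).totalDegree ≤ Q.totalDegree := by
  rw [MvPolynomial.aeval_def, MvPolynomial.eval₂_eq]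
  refine (MvPolynomial.totalDegree_finsetSum _ _).trans (Finset.sup_le fun d hd => ?_)
  refine (MvPolynomial.totalDegree_mul _ _).trans ?_
  have h1 : ((algebraMap ℝ (MvPolynomial τ ℝ)) (Q.coeff d)).totalDegree = 0 :=
    MvPolynomial.totalDegree_C _
  rw [h1, zero_add]
  refine (MvPolynomial.totalDegree_finsetProd _ _).trans ?_
  refine le_trans ?_ (MvPolynomial.le_totalDegree hd)
  rw [Finsupp.sum]
  refine Finset.sum_le_sum fun i _ => ?_
  refine (MvPolynomial.totalDegree_pow _ _).trans ?_
  calc d i * (f i).totalDegree ≤ d i * 1 := Nat.mul_le_mul_left _ (hf i)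
    _ = d i := mul_one _

lemma eval_aeval {σ τ : Type*} (f : σ → MvPolynomial τ ℝ) (Q : MvPolynomial σ ℝ) (w : τ → ℝ) :
    MvPolynomial.eval w (MvPolynomial.aeval f Q) =
      MvPolynomial.eval (fun j => MvPolynomial.eval w (f j)) Q := by
  rw [MvPolynomial.aeval_def, MvPolynomial.algebraMap_eq, MvPolynomial.eval_eval₂]
  simp [MvPolynomial.eval₂_eq, MvPolynomial.eval_eq]

lemma sum_pow_two (r : ℕ) : ∑ i : Fin r, 2 ^ (i : ℕ) = 2 ^ r - 1 := by
  rw [Fin.sum_univ_eq_sum_range (fun i => 2 ^ i) r]
  have := Nat.geomSum_eq (le_refl 2) r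
  simpa using this

/-- the exponents after clearing denominators -/
noncomputable def hat {r : ℕ} (d : Option (Fin r) →₀ ℕ) : Fin r →₀ ℕ :=
  Finsupp.equivFunOnFinite.symm fun i => d (some i) + (2 ^ r - d none) * 2 ^ (i : ℕ)

lemma hat_apply {r : ℕ} (d : Option (Fin r) →₀ ℕ) (i : Fin r) :
    hat d i = d (some i) + (2 ^ r - d none) * 2 ^ (i : ℕ) := rfl

lemma deg_option {r : ℕ} (d : Option (Fin r) →₀ ℕ) :
    (d.sum fun _ e => e) = d none + ∑ i : Fin r, d (some i) := by
  rw [Finsupp.sum_fintype _ _ (fun _ => rfl), Fintype.sum_option]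

lemma hat_inj_aux {r : ℕ} {d d' : Option (Fin r) →₀ ℕ} (hd : (d.sum fun _ e => e) < 2 ^ r)
    (hd' : (d'.sum fun _ e => e) < 2 ^ r) (h : hat d = hat d') (hle : d none ≤ d' none) :
    d = d' := by
  rw [deg_option] at hd hd'
  have key : ∀ i : Fin r, d' (some i) = d (some i) + (d' none - d none) * 2 ^ (i : ℕ) := by
    intro i
    have h1 := DFunLike.congr_fun h i
    rw [hat_apply, hat_apply] at h1
    obtain ⟨t, ht⟩ := Nat.exists_eq_add_of_le hle
    obtain ⟨u, hu⟩ := Nat.exists_eq_add_of_le (show d' none ≤ 2 ^ r by omega)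
    have e1 : 2 ^ r - d none = t + u := by omega
    have e2 : 2 ^ r - d' none = u := by omega
    have e3 : d' none - d none = t := by omega
    rw [e1, e2] at h1
    rw [e3]
    nlinarith
  by_cases hlt : d none < d' none
  · exfalso
    have h2 : ∀ i : Fin r, 2 ^ (i : ℕ) ≤ d' (some i) := by
      intro i
      rw [key i]
      have : 1 ≤ d' none - d none := by omega
      have h3 : 1 * 2 ^ (i : ℕ) ≤ (d' none - d none) * 2 ^ (i : ℕ) := Nat.mul_le_mul_right _ this
      omega
    have h3 : ∑ i : Fin r, 2 ^ (i : ℕ) ≤ ∑ i : Fin r, d' (some i) :=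
      Finset.sum_le_sum fun i _ => h2 i
    rw [sum_pow_two] at h3
    have : 0 < 2 ^ r := by positivity
    omega
  · have h0 : d none = d' none := by omega
    ext j
    rcases j with _ | i
    · exact h0
    · rw [key i, h0]
      simp

lemma hat_inj {r : ℕ} {d d' : Option (Fin r) →₀ ℕ} (hd : (d.sum fun _ e => e) < 2 ^ r)
    (hd' : (d'.sum fun _ e => e) < 2 ^ r) (h : hat d = hat d') : d = d' := by
  rcases le_total (d none) (d' none) with hle | hle
  · exact hat_inj_aux hd hd' h hle
  · exact (hat_inj_aux hd' hd h.symm hle).symm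

lemma zero_of_monomial_curve {r : ℕ} (R : MvPolynomial (Option (Fin r)) ℝ)
    (hR : R.totalDegree < 2 ^ r)
    (h : ∀ s : Fin r → ℝ, (∀ i, 0 < s i) →
      MvPolynomial.eval (fun j : Option (Fin r) => j.elim (1 / ∏ i, s i ^ (2 ^ (i : ℕ))) s) R = 0) :
    R = 0 := by
  set S : MvPolynomial (Fin r) ℝ :=
    ∑ d ∈ R.support, MvPolynomial.monomial (hat d) (R.coeff d) with hS
  have hdeg : ∀ d ∈ R.support, (d.sum fun _ e => e) < 2 ^ r := fun d hd =>
    (MvPolynomial.le_totalDegree hd).trans_lt hR
  have hS0 : S = 0 := by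
    apply MvPolynomial.funext_set (fun _ => Ioi (0:ℝ)) (fun _ => Ioi_infinite 0)
    intro s hs
    have hs : ∀ i, 0 < s i := fun i => hs i (mem_univ i)
    have h1 := h s hs
    set P := ∏ i, s i ^ (2 ^ (i : ℕ)) with hP
    have hP0 : 0 < P := Finset.prod_pos fun i _ => pow_pos (hs i) _
    rw [map_zero]
    have h2 : MvPolynomial.eval s S = P ^ (2 ^ r) *
        MvPolynomial.eval (fun j : Option (Fin r) => j.elim (1 / P) s) R := by
      rw [hS, map_sum, MvPolynomial.eval_eq' _ R, Finset.mul_sum]
      refine Finset.sum_congr rfl fun d hd => ?_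
      have h3 := hdeg d hd
      rw [deg_option] at h3
      rw [MvPolynomial.eval_monomial, Finsupp.prod_fintype _ _ (fun _ => pow_zero _),
        Fintype.prod_option]
      simp only [Option.elim]
      have h4 : ∏ i, s i ^ (hat d i) = (∏ i, s i ^ d (some i)) * P ^ (2 ^ r - d none) := by
        rw [hP, ← Finset.prod_pow, ← Finset.prod_mul_distrib]
        refine Finset.prod_congr rfl fun i _ => ?_
        rw [hat_apply, pow_add, ← pow_mul, mul_comm (2 ^ (i:ℕ))]
      rw [h4]
      have h5 : P ^ (2 ^ r) = P ^ (2 ^ r - d none) * P ^ (d none) := by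
        rw [← pow_add]
        congr 1
        omega
      rw [h5]
      have h6 : P ^ (d none) * (1 / P) ^ (d none) = 1 := by
        rw [← mul_pow, mul_one_div_cancel hP0.ne', one_pow]
      calc R.coeff d * ((∏ i, s i ^ d (some i)) * P ^ (2 ^ r - d none))
          = P ^ (2 ^ r - d none) * (R.coeff d * (1 * ∏ i, s i ^ d (some i))) := by ring
        _ = P ^ (2 ^ r - d none) * (R.coeff d * ((P ^ (d none) * (1 / P) ^ (d none)) *
            ∏ i, s i ^ d (some i))) := by rw [h6]
        _ = _ := by ring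
    rw [h2, h1, mul_zero]
  ext d
  rw [MvPolynomial.coeff_zero]
  by_contra hne
  have hd : d ∈ R.support := MvPolynomial.mem_support_iff.mpr hne
  have h1 : MvPolynomial.coeff (hat d) S = R.coeff d := by
    rw [hS, MvPolynomial.coeff_sum, Finset.sum_eq_single d]
    · rw [MvPolynomial.coeff_monomial, if_pos rfl]
    · intro d' hd' hne'
      rw [MvPolynomial.coeff_monomial, if_neg]
      intro heq
      exact hne' (hat_inj (hdeg d' hd') (hdeg d hd) heq)
    · intro h; exact absurd hd h
  rw [hS0, MvPolynomial.coeff_zero] at h1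
  exact hne h1.symm

/-! ### Coordinates -/

/-- an enumeration of the coordinates -/
noncomputable def enum (r : ℕ) : Option (Fin r × Bool) ≃ Fin (2 * r + 1) :=
  Fintype.equivFinOfCardEq (by simp; ring)

/-- the coordinates `((s_i, p_i), z)` -/
noncomputable def Th (r : ℕ) : E (2 * r + 1) ≃L[ℝ] X r × ℝ :=
  LinearEquiv.toContinuousLinearEquiv
    { toFun := fun x => (fun i => (x (enum r (some (i, false))), x (enum r (some (i, true)))),
        x (enum r none))
      map_add' := fun x y => rfl
      map_smul' := fun c x => rfl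
      invFun := fun w => WithLp.toLp 2 fun j => match (enum r).symm j with
        | none => w.2
        | some (i, false) => (w.1 i).1
        | some (i, true) => (w.1 i).2
      left_inv := fun x => by
        ext j
        obtain ⟨j, rfl⟩ := (enum r).surjective j
        rcases j with _ | ⟨i, _ | _⟩ <;> simp
      right_inv := fun w => by
        refine Prod.ext (funext fun i => Prod.ext ?_ ?_) ?_ <;> simp }

variable {r : ℕ}

lemma Th_fst (x : E (2 * r + 1)) (i : Fin r) :
    (Th r x).1 i = (x (enum r (some (i, false))), x (enum r (some (i, true)))) := rfl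

lemma Th_snd (x : E (2 * r + 1)) : (Th r x).2 = x (enum r none) := rfl

/-- the hypersurface -/
def Mr (r : ℕ) : Set (E (2 * r + 1)) := gM (Th r) (Dom r) (ff 1)

lemma mem_Mr {x : E (2 * r + 1)} : x ∈ Mr r ↔ (∀ i : Fin r, 0 < x (enum r (some (i, false)))) ∧
    x (enum r none) = 1 / (∏ i : Fin r, x (enum r (some (i, false))) ^ (2 ^ (i : ℕ))) +
      ∑ i : Fin r, (2:ℝ) ^ (i : ℕ) * (x (enum r (some (i, true))) ^ 2 /
        x (enum r (some (i, false)))) := Iff.rfl

/-- the substitution `p_i = c_i s_i` -/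
noncomputable def sub (c : Fin r → ℝ) (j : Fin (2 * r + 1)) : MvPolynomial (Option (Fin r)) ℝ :=
  match (enum r).symm j with
  | none => MvPolynomial.X none +
      ∑ i : Fin r, MvPolynomial.C ((2:ℝ) ^ (i : ℕ) * c i ^ 2) * MvPolynomial.X (some i)
  | some (i, false) => MvPolynomial.X (some i)
  | some (i, true) => MvPolynomial.C (c i) * MvPolynomial.X (some i)

lemma sub_none (c : Fin r → ℝ) : sub c (enum r none) = MvPolynomial.X none +
      ∑ i : Fin r, MvPolynomial.C ((2:ℝ) ^ (i : ℕ) * c i ^ 2) * MvPolynomial.X (some i) := by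
  simp [sub]

lemma sub_false (c : Fin r → ℝ) (i : Fin r) :
    sub c (enum r (some (i, false))) = MvPolynomial.X (some i) := by
  simp [sub]

lemma sub_true (c : Fin r → ℝ) (i : Fin r) :
    sub c (enum r (some (i, true))) = MvPolynomial.C (c i) * MvPolynomial.X (some i) := by
  simp [sub]

lemma totalDegree_CX {τ : Type*} (c : ℝ) (j : τ) :
    (MvPolynomial.C c * MvPolynomial.X j : MvPolynomial τ ℝ).totalDegree ≤ 1 := by
  refine (MvPolynomial.totalDegree_mul _ _).trans ?_
  rw [MvPolynomial.totalDegree_C, MvPolynomial.totalDegree_X, zero_add]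

lemma totalDegree_sub (c : Fin r → ℝ) (j : Fin (2 * r + 1)) : (sub c j).totalDegree ≤ 1 := by
  obtain ⟨j, rfl⟩ := (enum r).surjective j
  rcases j with _ | ⟨i, _ | _⟩
  · rw [sub_none]
    refine (MvPolynomial.totalDegree_add _ _).trans (max_le ?_ ?_)
    · rw [MvPolynomial.totalDegree_X]
    · refine (MvPolynomial.totalDegree_finsetSum _ _).trans (Finset.sup_le fun i _ => ?_)
      exact totalDegree_CX _ _
  · rw [sub_false, MvPolynomial.totalDegree_X]
  · rw [sub_true]
    exact totalDegree_CX _ _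

/-- no nonzero polynomial of degree less than `2 ^ r` vanishes on the hypersurface -/
theorem eq_zero_of_vanish (Q : MvPolynomial (Fin (2 * r + 1)) ℝ) (hQ : Q.totalDegree < 2 ^ r)
    (h0 : ∀ x ∈ Mr r, MvPolynomial.eval (fun i => x i) Q = 0) : Q = 0 := by
  have key : ∀ c : Fin r → ℝ, MvPolynomial.aeval (sub c) Q = 0 := by
    intro c
    refine zero_of_monomial_curve _ ((totalDegree_aeval_le _ (totalDegree_sub c) Q).trans_lt hQ)
      fun s hs => ?_
    rw [eval_aeval]
    refine h0 (WithLp.toLp 2 fun j => MvPolynomial.eval _ (sub c j)) ?_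
    rw [mem_Mr]
    refine ⟨fun i => ?_, ?_⟩
    · simp only [sub_false, MvPolynomial.eval_X, Option.elim]
      exact hs i
    · simp only [sub_false, sub_true, sub_none, MvPolynomial.eval_X, Option.elim, map_add, map_sum,
        map_mul, MvPolynomial.eval_C]
      congr 1
      refine Finset.sum_congr rfl fun i _ => ?_
      have := hs i
      field_simp
  apply MvPolynomial.funext_set
    (fun j => match (enum r).symm j with
      | some (_, false) => Ioi (0:ℝ)
      | _ => univ)
  · intro j
    obtain ⟨j, rfl⟩ := (enum r).surjective j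
    rcases j with _ | ⟨i, _ | _⟩
    · simpa using infinite_univ
    · simpa using Ioi_infinite (0:ℝ)
    · simpa using infinite_univ
  · intro x hx
    have hs : ∀ i : Fin r, 0 < x (enum r (some (i, false))) := by
      intro i
      have := hx (enum r (some (i, false))) (mem_univ _)
      simpa using this
    rw [map_zero]
    have h1 := congrArg (MvPolynomial.eval fun j : Option (Fin r) => j.elim
      (x (enum r none) - ∑ i : Fin r, (2:ℝ) ^ (i : ℕ) *
        (x (enum r (some (i, true))) / x (enum r (some (i, false)))) ^ 2 *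
        x (enum r (some (i, false))))
      (fun i => x (enum r (some (i, false)))))
      (key fun i => x (enum r (some (i, true))) / x (enum r (some (i, false))))
    rw [eval_aeval, map_zero] at h1
    rw [← h1]
    congr 2
    funext j
    obtain ⟨j, rfl⟩ := (enum r).surjective j
    rcases j with _ | ⟨i, _ | _⟩
    · rw [sub_none]
      simp
    · rw [sub_false]
      simp
    · rw [sub_true]
      have := hs i
      simp
      field_simp

/-- the polynomial equation of the hypersurface -/
noncomputable def GG (r : ℕ) : MvPolynomial (Fin (2 * r + 1)) ℝ :=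
  MvPolynomial.X (enum r none) *
      ∏ i : Fin r, MvPolynomial.X (enum r (some (i, false))) ^ (2 ^ (i : ℕ)) -
    (1 + ∑ j : Fin r, MvPolynomial.C ((2:ℝ) ^ (j : ℕ)) *
      (MvPolynomial.X (enum r (some (j, true))) ^ 2 *
        (MvPolynomial.X (enum r (some (j, false))) ^ (2 ^ (j : ℕ) - 1) *
        ∏ i ∈ Finset.univ.erase j,
          MvPolynomial.X (enum r (some (i, false))) ^ (2 ^ (i : ℕ)))))

lemma totalDegree_Xpow_le {τ : Type*} (j : τ) (e : ℕ) :
    (MvPolynomial.X j ^ e : MvPolynomial τ ℝ).totalDegree ≤ e := by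
  refine (MvPolynomial.totalDegree_pow _ _).trans ?_
  rw [MvPolynomial.totalDegree_X, mul_one]

lemma totalDegree_GG : (GG r).totalDegree ≤ 2 ^ r := by
  have h2 : 0 < 2 ^ r := by positivity
  unfold GG
  refine (MvPolynomial.totalDegree_sub _ _).trans (max_le ?_ ?_)
  · refine (MvPolynomial.totalDegree_mul _ _).trans ?_
    rw [MvPolynomial.totalDegree_X]
    have h1 : (∏ i : Fin r, (MvPolynomial.X (enum r (some (i, false))) ^ (2 ^ (i : ℕ)) :
        MvPolynomial (Fin (2 * r + 1)) ℝ)).totalDegree ≤ ∑ i : Fin r, 2 ^ (i : ℕ) :=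
      (MvPolynomial.totalDegree_finsetProd _ _).trans
        (Finset.sum_le_sum fun i _ => totalDegree_Xpow_le _ _)
    rw [sum_pow_two] at h1
    omega
  · refine (MvPolynomial.totalDegree_add _ _).trans (max_le ?_ ?_)
    · rw [MvPolynomial.totalDegree_one]; exact h2.le
    · refine (MvPolynomial.totalDegree_finsetSum _ _).trans (Finset.sup_le fun j _ => ?_)
      refine (MvPolynomial.totalDegree_mul _ _).trans ?_
      rw [MvPolynomial.totalDegree_C, zero_add]
      refine (MvPolynomial.totalDegree_mul _ _).trans ?_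
      have h3 := totalDegree_Xpow_le (enum r (some (j, true))) 2
      have h4 := totalDegree_Xpow_le (enum r (some (j, false))) (2 ^ (j : ℕ) - 1)
      have h5 : (∏ i ∈ Finset.univ.erase j,
          (MvPolynomial.X (enum r (some (i, false))) ^ (2 ^ (i : ℕ)) :
          MvPolynomial (Fin (2 * r + 1)) ℝ)).totalDegree ≤
            ∑ i ∈ Finset.univ.erase j, 2 ^ (i : ℕ) :=
        (MvPolynomial.totalDegree_finsetProd _ _).trans
          (Finset.sum_le_sum fun i _ => totalDegree_Xpow_le _ _)
      have h6 : 2 ^ (j : ℕ) + ∑ i ∈ Finset.univ.erase j, 2 ^ (i : ℕ) = 2 ^ r - 1 := by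
        rw [← sum_pow_two r]
        exact Finset.add_sum_erase Finset.univ (fun i : Fin r => 2 ^ (i : ℕ)) (Finset.mem_univ j)
      have h7 := MvPolynomial.totalDegree_mul
        (MvPolynomial.X (enum r (some (j, false))) ^ (2 ^ (j : ℕ) - 1) :
          MvPolynomial (Fin (2 * r + 1)) ℝ)
        (∏ i ∈ Finset.univ.erase j, MvPolynomial.X (enum r (some (i, false))) ^ (2 ^ (i : ℕ)))
      have h8 : 1 ≤ 2 ^ (j : ℕ) := Nat.one_le_two_pow
      omega

lemma eval_GG {x : E (2 * r + 1)} (hx : x ∈ Mr r) :
    MvPolynomial.eval (fun i => x i) (GG r) = 0 := by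
  obtain ⟨hs, hz⟩ := mem_Mr.mp hx
  unfold GG
  simp only [map_sub, map_mul, map_prod, map_pow, map_add, map_sum, map_one, MvPolynomial.eval_X,
    MvPolynomial.eval_C]
  set P := ∏ i : Fin r, x (enum r (some (i, false))) ^ (2 ^ (i : ℕ)) with hP
  have hP0 : 0 < P := Finset.prod_pos fun i _ => pow_pos (hs i) _
  rw [hz, add_mul, one_div_mul_cancel hP0.ne', Finset.sum_mul]
  have h1 : ∀ j : Fin r, (2:ℝ) ^ (j : ℕ) * (x (enum r (some (j, true))) ^ 2 /
      x (enum r (some (j, false)))) * P =
      (2:ℝ) ^ (j : ℕ) * (x (enum r (some (j, true))) ^ 2 *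
        (x (enum r (some (j, false))) ^ (2 ^ (j : ℕ) - 1) *
        ∏ i ∈ Finset.univ.erase j, x (enum r (some (i, false))) ^ (2 ^ (i : ℕ)))) := by
    intro j
    have h2 := Finset.mul_prod_erase Finset.univ
      (fun i : Fin r => x (enum r (some (i, false))) ^ (2 ^ (i : ℕ))) (Finset.mem_univ j)
    have h3 : x (enum r (some (j, false))) ^ (2 ^ (j : ℕ)) =
        x (enum r (some (j, false))) ^ (2 ^ (j : ℕ) - 1) * x (enum r (some (j, false))) := by
      rw [← pow_succ]
      congr 1
      have : 1 ≤ 2 ^ (j : ℕ) := Nat.one_le_two_pow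
      omega
    have h4 := hs j
    rw [hP, ← h2]
    simp only
    rw [h3]
    field_simp
  rw [Finset.sum_congr rfl fun j _ => h1 j]
  ring

lemma GG_ne_zero : GG r ≠ 0 := by
  intro h
  have h1 := congrArg (MvPolynomial.eval (0 : Fin (2 * r + 1) → ℝ)) h
  unfold GG at h1
  simp only [map_sub, map_mul, map_prod, map_pow, map_add, map_sum, map_one, map_zero,
    MvPolynomial.eval_X, MvPolynomial.eval_C, Pi.zero_apply] at h1
  simp at h1

/-- the least degree of a nonzero polynomial vanishing on the hypersurface is `2 ^ r` -/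
theorem isLeast_degree : IsLeast {d : ℕ | ∃ Q : MvPolynomial (Fin (2 * r + 1)) ℝ, Q ≠ 0 ∧
    Q.totalDegree = d ∧ ∀ x ∈ Mr r, MvPolynomial.eval (fun i => x i) Q = 0} (2 ^ r) := by
  constructor
  · refine ⟨GG r, GG_ne_zero, le_antisymm totalDegree_GG ?_, fun x hx => eval_GG hx⟩
    by_contra h
    exact GG_ne_zero (eq_zero_of_vanish _ (not_le.mp h) fun x hx => eval_GG hx)
  · rintro d ⟨Q, hQ, rfl, h0⟩
    by_contra h
    exact hQ (eq_zero_of_vanish Q (not_le.mp h) h0)

end Pool.Agent.Y106.LPI
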