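import Pool.Agent.Y106.LPI.Graph

/-!
# The family `1 / ∏ s_i ^ (2 ^ i) + ∑ 2 ^ i * p_i ^ 2 / s_i`
-/

open MeasureTheory Set Topology
open scoped ENNReal NNReal RealInnerProductSpace ContDiff MeasureTheory

namespace Pool.Agent.Y106.LPI

/-- the parameter space; the `i`-th coordinate is `(s_i, p_i)` -/
abbrev X (r : ℕ) : Type := Fin r → ℝ × ℝ

/-- the domain `s_i > 0` -/
def Dom (r : ℕ) : Set (X r) := {x | ∀ i, 0 < (x i).1}

/-- all coordinates but the first -/
noncomputable def tl {r : ℕ} : X (r + 1) →L[ℝ] X r :=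
  ContinuousLinearMap.pi fun i => ContinuousLinearMap.proj i.succ

variable {r : ℕ}

lemma tl_apply (x : X (r + 1)) (i : Fin r) : tl x i = x i.succ := rfl

lemma tl_mem {x : X (r + 1)} (hx : x ∈ Dom (r + 1)) : tl x ∈ Dom r := fun i => hx i.succ

/-- the product `∏ s_i ^ (2 ^ i)` -/
noncomputable def PP (x : X r) : ℝ := ∏ i : Fin r, (x i).1 ^ (2 ^ (i : ℕ))

/-- the sum `∑ 2 ^ i * p_i ^ 2 / s_i` -/
noncomputable def QQ (x : X r) : ℝ := ∑ i : Fin r, (2:ℝ) ^ (i : ℕ) * ((x i).2 ^ 2 / (x i).1)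

/-- the function -/
noncomputable def ff (l : ℝ) (x : X r) : ℝ := l / PP x + QQ x

lemma PP_pos {x : X r} (hx : x ∈ Dom r) : 0 < PP x := Finset.prod_pos fun i _ => pow_pos (hx i) _

lemma PP_succ (x : X (r + 1)) : PP x = (x 0).1 * PP (tl x) ^ 2 := by
  unfold PP
  rw [Fin.prod_univ_succ, ← Finset.prod_pow]
  congr 1
  · simp
  · refine Finset.prod_congr rfl fun i _ => ?_
    rw [tl_apply, ← pow_mul, Fin.val_succ, pow_succ]

lemma QQ_succ (x : X (r + 1)) : QQ x = (x 0).2 ^ 2 / (x 0).1 + 2 * QQ (tl x) := by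
  unfold QQ
  rw [Fin.sum_univ_succ, Finset.mul_sum]
  congr 1
  · simp
  · refine Finset.sum_congr rfl fun i _ => ?_
    rw [tl_apply, Fin.val_succ, pow_succ]
    ring

/-- the ratio which governs the recursion -/
noncomputable def mu (a : X (r + 1)) : ℝ := 1 / PP (tl a) / (a 0).1

lemma mu_pos {a : X (r + 1)} (ha : a ∈ Dom (r + 1)) : 0 < mu a := by
  have h1 := PP_pos (tl_mem ha)
  have h2 := ha 0
  unfold mu; positivity

/-- the slope -/
noncomputable def slo : (r : ℕ) → ℝ → X r → (X r →L[ℝ] ℝ)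
  | 0, _, _ => 0
  | r + 1, l, a =>
    (2:ℝ) • (slo r (l * mu a) (tl a)).comp tl +
    (2 * ((a 0).2 / (a 0).1)) •
      (ContinuousLinearMap.snd ℝ ℝ ℝ).comp (ContinuousLinearMap.proj (0 : Fin (r + 1))) -
    (l * mu a ^ 2 + ((a 0).2 / (a 0).1) ^ 2) •
      (ContinuousLinearMap.fst ℝ ℝ ℝ).comp (ContinuousLinearMap.proj (0 : Fin (r + 1)))

/-- the excess over the tangent plane -/
noncomputable def BB : (r : ℕ) → ℝ → X r → X r → ℝ
  | 0, _, _, _ => 0
  | r + 1, l, a, x =>
    l * (1 / PP (tl x) - mu a * (x 0).1) ^ 2 / (x 0).1 +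
    ((x 0).2 - (a 0).2 / (a 0).1 * (x 0).1) ^ 2 / (x 0).1 +
    2 * BB r (l * mu a) (tl a) (tl x)

lemma slo_succ (l : ℝ) (a w : X (r + 1)) : slo (r + 1) l a w =
    2 * slo r (l * mu a) (tl a) (tl w) + (2 * ((a 0).2 / (a 0).1)) * (w 0).2 -
    (l * mu a ^ 2 + ((a 0).2 / (a 0).1) ^ 2) * (w 0).1 := rfl

lemma ff_sub : ∀ (r : ℕ) (l : ℝ) (a x : X r), a ∈ Dom r → x ∈ Dom r →
    ff l x - ff l a - slo r l a (x - a) = BB r l a x := by
  intro r
  induction r with
  | zero =>
    intro l a x _ _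
    have : x = a := Subsingleton.elim x a
    subst this
    simp [slo, BB]
  | succ r ih =>
    intro l a x ha hx
    have h1 := ih (l * mu a) (tl a) (tl x) (tl_mem ha) (tl_mem hx)
    rw [BB, ← h1, slo_succ, map_sub]
    unfold ff
    rw [PP_succ, PP_succ, QQ_succ, QQ_succ]
    have h2 := PP_pos (tl_mem ha)
    have h3 := PP_pos (tl_mem hx)
    have h4 := ha 0
    have h5 := hx 0
    simp only [Pi.sub_apply, Prod.fst_sub, Prod.snd_sub]
    generalize slo r (l * mu a) (tl a) (tl x - tl a) = s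
    unfold mu
    generalize PP (tl a) = A at *
    generalize PP (tl x) = B at *
    generalize QQ (tl a) = C
    generalize QQ (tl x) = D
    generalize (a 0).1 = α at *
    generalize (x 0).1 = t at *
    generalize (a 0).2 = β
    generalize (x 0).2 = q
    field_simp
    ring

lemma BB_nonneg : ∀ (r : ℕ) (l : ℝ) (a x : X r), 0 < l → a ∈ Dom r → x ∈ Dom r →
    0 ≤ BB r l a x := by
  intro r
  induction r with
  | zero => intro l a x _ _ _; exact le_rfl
  | succ r ih =>
    intro l a x hl ha hx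
    have h1 := ih (l * mu a) (tl a) (tl x) (mul_pos hl (mu_pos ha)) (tl_mem ha) (tl_mem hx)
    have h5 := hx 0
    rw [BB]
    positivity

lemma eq_of_BB : ∀ (r : ℕ) (l : ℝ) (a x : X r), 0 < l → a ∈ Dom r → x ∈ Dom r →
    BB r l a x = 0 → x = a := by
  intro r
  induction r with
  | zero => intro l a x _ _ _ _; exact Subsingleton.elim x a
  | succ r ih =>
    intro l a x hl ha hx h
    have hm := mu_pos ha
    have h1 := BB_nonneg r (l * mu a) (tl a) (tl x) (mul_pos hl hm) (tl_mem ha) (tl_mem hx)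
    have h5 := hx 0
    have h6 := ha 0
    rw [BB] at h
    have e1 : 0 ≤ l * (1 / PP (tl x) - mu a * (x 0).1) ^ 2 / (x 0).1 := by positivity
    have e2 : 0 ≤ ((x 0).2 - (a 0).2 / (a 0).1 * (x 0).1) ^ 2 / (x 0).1 := by positivity
    have f1 : l * (1 / PP (tl x) - mu a * (x 0).1) ^ 2 / (x 0).1 = 0 := by linarith
    have f2 : ((x 0).2 - (a 0).2 / (a 0).1 * (x 0).1) ^ 2 / (x 0).1 = 0 := by linarith
    have f3 : BB r (l * mu a) (tl a) (tl x) = 0 := by linarith
    have g3 := ih (l * mu a) (tl a) (tl x) (mul_pos hl hm) (tl_mem ha) (tl_mem hx) f3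
    rw [div_eq_zero_iff, or_iff_left h5.ne', mul_eq_zero, or_iff_right hl.ne', sq_eq_zero_iff,
      g3, sub_eq_zero] at f1
    rw [div_eq_zero_iff, or_iff_left h5.ne', sq_eq_zero_iff, sub_eq_zero] at f2
    have g1 : (x 0).1 = (a 0).1 := by
      have h7 : 1 / PP (tl a) = mu a * (a 0).1 := by
        unfold mu; field_simp
      rw [h7] at f1
      exact (mul_left_cancel₀ hm.ne' f1).symm
    have g2 : (x 0).2 = (a 0).2 := by
      rw [f2, g1]; field_simp
    funext i
    refine Fin.cases ?_ (fun i => ?_) i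
    · exact Prod.ext g1 g2
    · exact congrFun g3 i

lemma isOpen_Dom (r : ℕ) : IsOpen (Dom r) := by
  have : Dom r = ⋂ i, {x : X r | 0 < (x i).1} := by
    ext x; simp [Dom]
  rw [this]
  exact isOpen_iInter_of_finite fun i => isOpen_lt continuous_const (by fun_prop)

lemma convex_Dom (r : ℕ) : Convex ℝ (Dom r) := by
  intro x hx y hy α β hα hβ hαβ i
  have h1 : ((α • x + β • y) i).1 = α * (x i).1 + β * (y i).1 := by simp
  rw [h1]
  have hx := hx i
  have hy := hy i
  rcases hα.lt_or_eq with h | h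
  · have := mul_pos h hx
    have := mul_nonneg hβ hy.le
    linarith
  · have hβ1 : β = 1 := by linarith
    rw [← h, hβ1]; linarith

lemma one_mem_Dom (r : ℕ) : (fun _ => (1, 0)) ∈ Dom r := fun _ => one_pos

lemma continuous_PP : Continuous (PP (r := r)) := by
  unfold PP; fun_prop

lemma contDiffOn_ff (l : ℝ) : ContDiffOn ℝ ∞ (ff l) (Dom r) := by
  unfold ff
  apply ContDiffOn.add
  · apply ContDiffOn.div contDiffOn_const
    · apply ContDiff.contDiffOn
      unfold PP
      fun_prop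
    · intro x hx
      exact (PP_pos hx).ne'
  · unfold QQ
    apply ContDiffOn.sum
    intro i _
    apply ContDiffOn.mul contDiffOn_const
    apply ContDiffOn.div
    · apply ContDiff.contDiffOn
      fun_prop
    · apply ContDiff.contDiffOn
      fun_prop
    · intro x hx
      exact (hx i).ne'

lemma measurable_ff (l : ℝ) : Measurable (ff (r := r) l) := by
  unfold ff PP QQ
  fun_prop

lemma cpt_aux : ∀ (r : ℕ) (l : ℝ) (a : X r) (T : ℝ), 0 < l → a ∈ Dom r → 0 ≤ T →
    ∃ C, IsCompact C ∧ C ⊆ Dom r ∧ {x | x ∈ Dom r ∧ BB r l a x ≤ T} ⊆ C := by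
  intro r
  induction r with
  | zero =>
    intro l a T _ _ _
    exact ⟨univ, isCompact_univ, fun x _ i => i.elim0, fun x _ => mem_univ x⟩
  | succ r ih =>
    intro l a T hl ha hT
    have hm := mu_pos ha
    obtain ⟨C, hC, hCD, hsub⟩ := ih (l * mu a) (tl a) (T / 2) (mul_pos hl hm) (tl_mem ha)
      (by positivity)
    obtain ⟨M1, hM1⟩ := hC.bddAbove_image (f := fun y : X r => 1 / PP y)
      (continuousOn_const.div continuous_PP.continuousOn fun y hy => (PP_pos (hCD hy)).ne')
    obtain ⟨M2, hM2⟩ := hC.bddAbove_image (f := fun y : X r => PP y) continuous_PP.continuousOn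
    set N1 := max M1 1 with hN1
    set N2 := max M2 1 with hN2
    have hN1p : 0 < N1 := lt_max_of_lt_right one_pos
    have hN2p : 0 < N2 := lt_max_of_lt_right one_pos
    set γ := (a 0).2 / (a 0).1 with hγ
    set t2 := (T + 2 * l * mu a * N1) / (l * mu a ^ 2) with ht2
    set t1 := l * (1 / N2) ^ 2 / (T + 2 * l * mu a * N1) with ht1
    set q2 := T * t2 + 1 + |γ| * t2 with hq2
    have ht1p : 0 < t1 := by positivity
    have ht2p : 0 < t2 := by positivity
    have hcont : Continuous fun z : (ℝ × ℝ) × X r => (Fin.cons z.1 z.2 : X (r + 1)) := by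
      refine continuous_pi fun i => ?_
      refine Fin.cases ?_ (fun i => ?_) i
      · simp only [Fin.cons_zero]
        fun_prop
      · simp only [Fin.cons_succ]
        fun_prop
    refine ⟨(fun z : (ℝ × ℝ) × X r => (Fin.cons z.1 z.2 : X (r + 1))) ''
      ((Icc t1 t2 ×ˢ Icc (-q2) q2) ×ˢ C),
      ((isCompact_Icc.prod isCompact_Icc).prod hC).image hcont, ?_, ?_⟩
    · rintro x ⟨z, ⟨⟨⟨hz1, -⟩, -⟩, hz2⟩, rfl⟩ i
      refine Fin.cases ?_ (fun i => ?_) i
      · simp only [Fin.cons_zero]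
        exact ht1p.trans_le hz1
      · simp only [Fin.cons_succ]
        exact hCD hz2 i
    · rintro x ⟨hx, hB⟩
      rw [BB] at hB
      have h1 := BB_nonneg r (l * mu a) (tl a) (tl x) (mul_pos hl hm) (tl_mem ha) (tl_mem hx)
      have ht : 0 < (x 0).1 := hx 0
      have e1 : 0 ≤ l * (1 / PP (tl x) - mu a * (x 0).1) ^ 2 / (x 0).1 := by positivity
      have e2 : 0 ≤ ((x 0).2 - (a 0).2 / (a 0).1 * (x 0).1) ^ 2 / (x 0).1 := by positivity
      have f1 : l * (1 / PP (tl x) - mu a * (x 0).1) ^ 2 / (x 0).1 ≤ T := by linarith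
      have f2 : ((x 0).2 - γ * (x 0).1) ^ 2 / (x 0).1 ≤ T := by linarith
      have f3 : BB r (l * mu a) (tl a) (tl x) ≤ T / 2 := by linarith
      have hy : tl x ∈ C := hsub ⟨tl_mem hx, f3⟩
      have g1 : 1 / PP (tl x) ≤ N1 := (hM1 (mem_image_of_mem _ hy)).trans (le_max_left _ _)
      have g2 : PP (tl x) ≤ N2 := (hM2 (mem_image_of_mem _ hy)).trans (le_max_left _ _)
      have hP := PP_pos (tl_mem hx)
      rw [div_le_iff₀ ht] at f1 f2
      have g3 : 1 / N2 ≤ 1 / PP (tl x) := one_div_le_one_div_of_le hP g2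
      set Y := 1 / PP (tl x) with hY
      set t := (x 0).1 with ht'
      set q := (x 0).2 with hq'
      have hYp : 0 < Y := by positivity
      have h2 : 0 ≤ l * mu a := by positivity
      have h3 : 2 * l * mu a * Y ≤ 2 * l * mu a * N1 := by
        have := mul_le_mul_of_nonneg_left g1 h2
        linarith
      have k1 : t ≤ t2 := by
        rw [ht2, le_div_iff₀ (by positivity)]
        have h4 : (l * mu a ^ 2 * t) * t ≤ (T + 2 * l * mu a * Y) * t := by
          have : 0 ≤ l * Y ^ 2 := by positivity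
          nlinarith
        have h5 := le_of_mul_le_mul_right h4 ht
        linarith
      have k2 : t1 ≤ t := by
        rw [ht1, div_le_iff₀ (by positivity)]
        have h4 : l * Y ^ 2 ≤ (T + 2 * l * mu a * Y) * t := by
          have : 0 ≤ l * (mu a * t) ^ 2 := by positivity
          nlinarith
        have h5 : (T + 2 * l * mu a * Y) * t ≤ (T + 2 * l * mu a * N1) * t :=
          mul_le_mul_of_nonneg_right (by linarith) ht.le
        have h6 : (1 / N2) ^ 2 ≤ Y ^ 2 := pow_le_pow_left₀ (by positivity) g3 2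
        have h7 := mul_le_mul_of_nonneg_left h6 hl.le
        linarith
      have k3 : (q - γ * t) ^ 2 ≤ T * t2 := f2.trans (mul_le_mul_of_nonneg_left k1 hT)
      have k4 : |q - γ * t| ≤ T * t2 + 1 := by
        rw [abs_le]
        constructor <;> nlinarith [sq_nonneg (q - γ * t + 1), sq_nonneg (q - γ * t - 1)]
      have k5 : |γ * t| ≤ |γ| * t2 := by
        rw [abs_mul, abs_of_pos ht]
        exact mul_le_mul_of_nonneg_left k1 (abs_nonneg _)
      have k6 : |q| ≤ q2 := by
        have : q = (q - γ * t) + γ * t := by ring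
        rw [this]
        refine (abs_add_le _ _).trans ?_
        rw [hq2]
        linarith
      refine ⟨((t, q), tl x), ⟨⟨⟨k2, k1⟩, abs_le.mp k6⟩, hy⟩, ?_⟩
      funext i
      refine Fin.cases ?_ (fun i => ?_) i
      · rfl
      · rfl

end Pool.Agent.Y106.LPI
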