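import Mathlib
import Pool.Agent.Results.MP_bfe3ea_gt.VinbergCone

/-!
# Graphs of convex functions all whose caps have polynomial volume

If every cap `{f < tangent + T}` of a smooth strictly convex function `f` on an open convex set is
relatively compact and has volume polynomial in `T`, then the graph of `f` is a locally
polynomially integrable hypersurface.
-/

open MeasureTheory Set Topology
open scoped ENNReal RealInnerProductSpace ContDiff MeasureTheory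

namespace Pool.Agent.Y106.LPI

open Pool.Agent.Results.MP_bfe3ea_gt.VinbergCone (E hyperplane IsUnitNormal IsInwardNormal
  IsSmoothStrictlyConvexHypersurface IsDomainBoundedBy LocallyPolynomiallyIntegrable)

/-- smooth strictly convex functions `f` on an open convex set `D` (with slopes `ℓ`) all whose caps
are relatively compact and have polynomial volume -/
structure Good {V : Type*} [NormedAddCommGroup V] [NormedSpace ℝ V] [MeasurableSpace V]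
    (μ : Measure V) (D : Set V) (f : V → ℝ) (ℓ : V → V →L[ℝ] ℝ) : Prop where
  isOpen : IsOpen D
  convex : Convex ℝ D
  nonempty : D.Nonempty
  smooth : ContDiffOn ℝ ∞ f D
  pos : ∀ a ∈ D, ∀ x ∈ D, x ≠ a → 0 < f x - f a - ℓ a (x - a)
  cpt : ∀ a ∈ D, ∀ T : ℝ, ∃ C, IsCompact C ∧ C ⊆ D ∧
    {x | x ∈ D ∧ f x - f a - ℓ a (x - a) ≤ T} ⊆ C
  meas : ∀ a ∈ D, ∀ T : ℝ, MeasurableSet {x | x ∈ D ∧ f x - f a - ℓ a (x - a) < T}
  vol : ∀ a ∈ D, ∃ P : Polynomial ℝ, ∀ T : ℝ, 0 < T →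
    μ {x | x ∈ D ∧ f x - f a - ℓ a (x - a) < T} = ENNReal.ofReal (P.eval T)

/-- images under linear maps scale the measure -/
lemma measure_linear {V : Type*} [NormedAddCommGroup V] [NormedSpace ℝ V] [FiniteDimensional ℝ V]
    [MeasurableSpace V] [BorelSpace V] (μ : Measure V) [μ.IsAddHaarMeasure] {d n : ℕ}
    (hd : Module.finrank ℝ V = d) (L : V →ₗ[ℝ] E n) : ∃ c : ℝ, 0 ≤ c ∧ ∀ S : Set V,
      MeasurableSet S → (μHE[d] : Measure (E n)) (L '' S) = ENNReal.ofReal c * μ S := by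
  have hfr : Module.finrank ℝ (E d) = Module.finrank ℝ V := by simp [hd]
  let e : E d ≃L[ℝ] V := ContinuousLinearEquiv.ofFinrankEq hfr
  let f : E d →ₗ[ℝ] E n := L.comp (e : E d →ₗ[ℝ] V)
  have i5 : (Measure.map e (volume : Measure (E d))).IsAddHaarMeasure :=
    e.isAddHaarMeasure_map volume
  have hμ := Measure.isAddLeftInvariant_eq_smul (Measure.map e (volume : Measure (E d))) μ
  set c := Measure.addHaarScalarFactor (Measure.map e (volume : Measure (E d))) μ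
  have hf : 0 ≤ f.normDet := f.normDet_nonneg
  refine ⟨f.normDet * c, by positivity, fun S hS => ?_⟩
  have h1 : L '' S = f '' (e ⁻¹' S) := by
    ext x
    constructor
    · rintro ⟨z, hz, rfl⟩
      exact ⟨e.symm z, by simpa using hz, by simp [f]⟩
    · rintro ⟨z, hz, rfl⟩
      exact ⟨e z, hz, rfl⟩
  have h2 := f.euclideanHausdorffMeasure_image_eq_normDet_mul_volume (e ⁻¹' S)
  have h3 : Module.finrank ℝ (E d) = d := by simp
  rw [h3] at h2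
  have h4 : volume (e ⁻¹' S) = c * μ S := by
    rw [← Measure.map_apply e.continuous.measurable hS, hμ]
    rfl
  rw [h1, h2, h4, ENNReal.ofReal_mul hf, mul_assoc]
  simp

lemma convex_hyperplane' {n : ℕ} (a v : E n) (t : ℝ) : Convex ℝ (hyperplane a v t) := by
  intro x hx y hy α β hα hβ hαβ
  unfold hyperplane at *
  simp only [mem_ofPred_eq] at *
  have : α • x + β • y - a = α • (x - a) + β • (y - a) := by
    have e : a = α • a + β • a := by rw [← add_smul, hαβ, one_smul]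
    rw [smul_sub, smul_sub]
    nth_rewrite 1 [e]
    abel
  rw [this, inner_add_right, real_inner_smul_right, real_inner_smul_right, hx, hy, ← add_mul,
    hαβ, one_mul]

lemma isClosed_hyperplane' {n : ℕ} (a v : E n) (t : ℝ) : IsClosed (hyperplane a v t) := by
  unfold hyperplane
  exact isClosed_eq (by fun_prop) continuous_const

section

variable {V : Type*} [NormedAddCommGroup V] [NormedSpace ℝ V] {n : ℕ}

/-- the graph -/
def gM (Θ : E n ≃L[ℝ] V × ℝ) (D : Set V) (f : V → ℝ) : Set (E n) :=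
  {x | (Θ x).1 ∈ D ∧ (Θ x).2 = f (Θ x).1}

/-- the open epigraph -/
def gK (Θ : E n ≃L[ℝ] V × ℝ) (D : Set V) (f : V → ℝ) : Set (E n) :=
  {x | (Θ x).1 ∈ D ∧ f (Θ x).1 < (Θ x).2}

/-- the linear form `z - ℓ` -/
noncomputable def lin (Θ : E n ≃L[ℝ] V × ℝ) (l : V →L[ℝ] ℝ) : E n →L[ℝ] ℝ :=
  ((ContinuousLinearMap.snd ℝ V ℝ) - l.comp (ContinuousLinearMap.fst ℝ V ℝ)).comp
    (Θ : E n →L[ℝ] V × ℝ)

/-- the normal -/
noncomputable def gN (Θ : E n ≃L[ℝ] V × ℝ) (l : V →L[ℝ] ℝ) : E n :=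
  (InnerProductSpace.toDual ℝ (E n)).symm (lin Θ l)

lemma inner_gN (Θ : E n ≃L[ℝ] V × ℝ) (l : V →L[ℝ] ℝ) (w : E n) :
    ⟪gN Θ l, w⟫ = (Θ w).2 - l (Θ w).1 := by
  unfold gN
  rw [InnerProductSpace.toDual_symm_apply]
  rfl

/-- vertical vector -/
noncomputable def gE (Θ : E n ≃L[ℝ] V × ℝ) : E n := Θ.symm (0, 1)

lemma inner_gN_gE (Θ : E n ≃L[ℝ] V × ℝ) (l : V →L[ℝ] ℝ) : ⟪gN Θ l, gE Θ⟫ = 1 := by
  rw [inner_gN]
  simp [gE]

lemma fst_add_gE (Θ : E n ≃L[ℝ] V × ℝ) (x : E n) (s : ℝ) : (Θ (x + s • gE Θ)).1 = (Θ x).1 := by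
  simp [gE]

lemma snd_add_gE (Θ : E n ≃L[ℝ] V × ℝ) (x : E n) (s : ℝ) :
    (Θ (x + s • gE Θ)).2 = (Θ x).2 + s := by
  simp [gE]

lemma norm_gN_pos (Θ : E n ≃L[ℝ] V × ℝ) (l : V →L[ℝ] ℝ) : 0 < ‖gN Θ l‖ := by
  rw [norm_pos_iff]
  intro h
  have h1 := inner_gN_gE Θ l
  rw [h, inner_zero_left] at h1
  exact zero_ne_one h1

/-- the unit normal -/
noncomputable def gnu (Θ : E n ≃L[ℝ] V × ℝ) (l : V →L[ℝ] ℝ) : E n := ‖gN Θ l‖⁻¹ • gN Θ l

lemma norm_gnu (Θ : E n ≃L[ℝ] V × ℝ) (l : V →L[ℝ] ℝ) : ‖gnu Θ l‖ = 1 := by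
  unfold gnu
  rw [norm_smul, norm_inv, norm_norm, inv_mul_cancel₀ (norm_gN_pos Θ l).ne']

lemma inner_gnu (Θ : E n ≃L[ℝ] V × ℝ) (l : V →L[ℝ] ℝ) (w : E n) :
    ⟪gnu Θ l, w⟫ = ⟪gN Θ l, w⟫ / ‖gN Θ l‖ := by
  unfold gnu
  rw [real_inner_smul_left]; field_simp

lemma mem_hyperplane_gnu {Θ : E n ≃L[ℝ] V × ℝ} {l : V →L[ℝ] ℝ} {a x : E n} {t : ℝ} :
    x ∈ hyperplane a (gnu Θ l) t ↔ ⟪gN Θ l, x - a⟫ = ‖gN Θ l‖ * t := by
  unfold hyperplane
  rw [mem_ofPred_eq, inner_gnu, div_eq_iff (norm_gN_pos Θ l).ne', mul_comm t]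

variable [MeasurableSpace V] {μ : Measure V} {D : Set V} {f : V → ℝ} {ℓ : V → V →L[ℝ] ℝ}

lemma Good.nonneg (hG : Good μ D f ℓ) {a x : V} (ha : a ∈ D) (hx : x ∈ D) :
    0 ≤ f x - f a - ℓ a (x - a) := by
  by_cases h : x = a
  · subst h; simp
  · exact (hG.pos a ha x hx h).le

lemma Good.hasFDerivAt (hG : Good μ D f ℓ) {a : V} (ha : a ∈ D) : HasFDerivAt f (ℓ a) a := by
  have h1 : DifferentiableAt ℝ f a :=
    (hG.smooth.differentiableOn (by simp)).differentiableAt (hG.isOpen.mem_nhds ha)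
  have h2 : HasFDerivAt (fun x => f x - f a - ℓ a (x - a)) (fderiv ℝ f a - ℓ a) a := by
    have h3 : HasFDerivAt (fun x => ℓ a (x - a)) (ℓ a) a :=
      (ℓ a).hasFDerivAt.comp a ((hasFDerivAt_id a).sub_const a)
    exact (h1.hasFDerivAt.sub_const (f a)).sub h3
  have h4 : IsLocalMin (fun x => f x - f a - ℓ a (x - a)) a := by
    filter_upwards [hG.isOpen.mem_nhds ha] with x hx
    have := hG.nonneg ha hx
    simpa using this
  have h5 := h4.hasFDerivAt_eq_zero h2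
  rw [← sub_eq_zero.mp h5]
  exact h1.hasFDerivAt

lemma Good.cont (hG : Good μ D f ℓ) : ContinuousOn f D := hG.smooth.continuousOn

variable {Θ : E n ≃L[ℝ] V × ℝ}

omit [MeasurableSpace V] in
/-- key identity -/
lemma inner_gN_sub {a x : E n} (ha : a ∈ gM Θ D f) :
    ⟪gN Θ (ℓ (Θ a).1), x - a⟫ = (Θ x).2 - f (Θ x).1 +
      (f (Θ x).1 - f (Θ a).1 - ℓ (Θ a).1 ((Θ x).1 - (Θ a).1)) := by
  rw [inner_gN, map_sub, Prod.snd_sub, Prod.fst_sub, ha.2]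
  ring

omit [MeasurableSpace V] in
lemma inner_gN_M {a x : E n} (ha : a ∈ gM Θ D f) (hx : x ∈ gM Θ D f) :
    ⟪gN Θ (ℓ (Θ a).1), x - a⟫ = f (Θ x).1 - f (Θ a).1 - ℓ (Θ a).1 ((Θ x).1 - (Θ a).1) := by
  rw [inner_gN_sub ha, hx.2]; ring

lemma Good.inner_pos (hG : Good μ D f ℓ) {a x : E n} (ha : a ∈ gM Θ D f) (hx : x ∈ gM Θ D f)
    (hne : x ≠ a) : 0 < ⟪gN Θ (ℓ (Θ a).1), x - a⟫ := by
  rw [inner_gN_M ha hx]
  refine hG.pos _ ha.1 _ hx.1 fun h => hne ?_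
  apply Θ.injective
  refine Prod.ext h ?_
  rw [ha.2, hx.2, h]

lemma Good.isUnitNormal (hG : Good μ D f ℓ) {a : E n} (ha : a ∈ gM Θ D f) :
    IsUnitNormal (gM Θ D f) a (gnu Θ (ℓ (Θ a).1)) := by
  have hc : Continuous fun x : E n => (Θ x).1 := by fun_prop
  refine ⟨norm_gnu Θ _, (fun x => (Θ x).1) ⁻¹' D, fun x => (Θ x).2 - f (Θ x).1,
    ‖gN Θ (ℓ (Θ a).1)‖, hG.isOpen.preimage hc, ha.1, ?_, (norm_gN_pos Θ _).ne', ?_, ?_⟩
  · have h1 : ContDiff ℝ ∞ fun x : E n => (Θ x).1 := by fun_prop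
    have h2 : ContDiff ℝ ∞ fun x : E n => (Θ x).2 := by fun_prop
    exact h2.contDiffOn.sub (hG.smooth.comp h1.contDiffOn fun x hx => hx)
  · have h0 : ‖gN Θ (ℓ (Θ a).1)‖ • gnu Θ (ℓ (Θ a).1) = gN Θ (ℓ (Θ a).1) := by
      unfold gnu
      rw [smul_smul, mul_inv_cancel₀ (norm_gN_pos Θ _).ne', one_smul]
    rw [h0, hasGradientAt_iff_hasFDerivAt]
    unfold gN
    rw [LinearIsometryEquiv.apply_symm_apply]
    have h1 : HasFDerivAt (fun x : E n => Θ x) (Θ : E n →L[ℝ] V × ℝ) a := Θ.hasFDerivAt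
    have h2 : HasFDerivAt (fun x : E n => (Θ x).1)
      ((ContinuousLinearMap.fst ℝ V ℝ).comp (Θ : E n →L[ℝ] V × ℝ)) a := h1.fst
    have h3 : HasFDerivAt (fun x : E n => (Θ x).2)
      ((ContinuousLinearMap.snd ℝ V ℝ).comp (Θ : E n →L[ℝ] V × ℝ)) a := h1.snd
    have h4 := h3.sub ((hG.hasFDerivAt ha.1).comp a h2)
    exact h4
  · ext x
    constructor
    · rintro ⟨⟨h0, h1⟩, -⟩
      exact ⟨h0, sub_eq_zero.mpr h1⟩
    · rintro ⟨h0, h1⟩
      exact ⟨⟨h0, sub_eq_zero.mp h1⟩, h0⟩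

lemma Good.isInwardNormal (hG : Good μ D f ℓ) {a : E n} (ha : a ∈ gM Θ D f) :
    IsInwardNormal (gM Θ D f) a (gnu Θ (ℓ (Θ a).1)) := by
  refine ⟨hG.isUnitNormal ha, fun x hx hne => ?_⟩
  rw [inner_gnu]
  exact div_pos (hG.inner_pos ha hx hne) (norm_gN_pos Θ _)

lemma Good.isConnected (hG : Good μ D f ℓ) : IsConnected (gM Θ D f) := by
  have h1 : gM Θ D f = (fun v => Θ.symm (v, f v)) '' D := by
    ext x
    constructor
    · rintro ⟨h0, h1⟩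
      refine ⟨(Θ x).1, h0, ?_⟩
      simp only
      rw [← h1]
      simp
    · rintro ⟨v, hv, rfl⟩
      simp [gM, hv]
  rw [h1]
  refine IsConnected.image ⟨hG.nonempty, hG.convex.isPreconnected⟩ _ ?_
  exact Θ.symm.continuous.comp_continuousOn (continuousOn_id.prodMk hG.cont)

lemma Good.isOpen_K (hG : Good μ D f ℓ) : IsOpen (gK Θ D f) := by
  have h1 : IsOpen {w : V × ℝ | w.1 ∈ D ∧ f w.1 < w.2} := by
    rw [isOpen_iff_mem_nhds]
    rintro ⟨v, z⟩ ⟨hv, hz⟩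
    have h2 : ContinuousAt (fun w : V × ℝ => f w.1) (v, z) :=
      ContinuousAt.comp (f := Prod.fst) (hG.cont.continuousAt (hG.isOpen.mem_nhds hv))
        continuousAt_fst
    have h3 : ∀ᶠ w : V × ℝ in 𝓝 (v, z), f w.1 < w.2 :=
      h2.eventually_lt continuousAt_snd hz
    have h4 : ∀ᶠ w : V × ℝ in 𝓝 (v, z), w.1 ∈ D :=
      continuousAt_fst.eventually (hG.isOpen.mem_nhds hv)
    filter_upwards [h3, h4] with w h5 h6
    exact ⟨h6, h5⟩
  exact h1.preimage Θ.continuous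

lemma Good.convex_K (hG : Good μ D f ℓ) : Convex ℝ (gK Θ D f) := by
  intro x hx y hy α β hα hβ hαβ
  obtain ⟨hx0, hx1⟩ := hx
  obtain ⟨hy0, hy1⟩ := hy
  have h1 : (Θ (α • x + β • y)).1 = α • (Θ x).1 + β • (Θ y).1 := by simp
  have h2 : (Θ (α • x + β • y)).2 = α * (Θ x).2 + β * (Θ y).2 := by simp
  have h3 : α • (Θ x).1 + β • (Θ y).1 ∈ D := hG.convex hx0 hy0 hα hβ hαβ
  set c := α • (Θ x).1 + β • (Θ y).1 with hc
  have h4 := hG.nonneg h3 hx0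
  have h5 := hG.nonneg h3 hy0
  have h6 : α * ℓ c ((Θ x).1 - c) + β * ℓ c ((Θ y).1 - c) = 0 := by
    rw [map_sub, map_sub]
    have h7 : ℓ c c = α * ℓ c (Θ x).1 + β * ℓ c (Θ y).1 := by
      nth_rewrite 2 [hc]
      rw [map_add, map_smul, map_smul, smul_eq_mul, smul_eq_mul]
    have h8 : β = 1 - α := by linarith
    rw [h7, h8]
    ring
  refine ⟨by rw [h1]; exact h3, ?_⟩
  rw [h1, h2]
  have h9 : f c < α * (Θ x).2 + β * (Θ y).2 := by
    have e1 : α * (f (Θ x).1 - f c - ℓ c ((Θ x).1 - c)) ≥ 0 := mul_nonneg hα h4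
    have e2 : β * (f (Θ y).1 - f c - ℓ c ((Θ y).1 - c)) ≥ 0 := mul_nonneg hβ h5
    have e3 : f c ≤ α * f (Θ x).1 + β * f (Θ y).1 := by
      have : f c = (α + β) * f c := by rw [hαβ, one_mul]
      nlinarith
    rcases hα.lt_or_eq with h | h
    · have := mul_lt_mul_of_pos_left hx1 h
      have := mul_le_mul_of_nonneg_left hy1.le hβ
      linarith
    · have hβ1 : β = 1 := by linarith
      rw [← h, hβ1] at e3 ⊢
      linarith
  exact h9

lemma Good.closure_K_subset (hG : Good μ D f ℓ) :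
    closure (gK Θ D f) ⊆ {x | (Θ x).1 ∈ D ∧ f (Θ x).1 ≤ (Θ x).2} := by
  intro x hx
  rw [mem_closure_iff_seq_limit] at hx
  obtain ⟨u, hu, hlim⟩ := hx
  obtain ⟨a, ha⟩ := hG.nonempty
  have h1 : Filter.Tendsto (fun i => (Θ (u i)).1) Filter.atTop (𝓝 (Θ x).1) :=
    ((by fun_prop : Continuous fun x : E n => (Θ x).1).tendsto x).comp hlim
  have h2 : Filter.Tendsto (fun i => (Θ (u i)).2) Filter.atTop (𝓝 (Θ x).2) :=
    ((by fun_prop : Continuous fun x : E n => (Θ x).2).tendsto x).comp hlim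
  have h3 : Filter.Tendsto (fun i => (Θ (u i)).2 - f a - ℓ a ((Θ (u i)).1 - a)) Filter.atTop
      (𝓝 ((Θ x).2 - f a - ℓ a ((Θ x).1 - a))) :=
    (h2.sub_const _).sub (((ℓ a).continuous.tendsto _).comp (h1.sub_const a))
  set T := (Θ x).2 - f a - ℓ a ((Θ x).1 - a) + 1 with hT
  have h4 : ∀ᶠ i in Filter.atTop, (Θ (u i)).2 - f a - ℓ a ((Θ (u i)).1 - a) < T :=
    h3.eventually_lt_const (by linarith)
  obtain ⟨C, hC, hCD, hsub⟩ := hG.cpt a ha T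
  have h5 : ∀ᶠ i in Filter.atTop, (Θ (u i)).1 ∈ C := by
    filter_upwards [h4] with i hi
    apply hsub
    refine ⟨(hu i).1, ?_⟩
    have := (hu i).2
    linarith
  have h6 : (Θ x).1 ∈ C := hC.isClosed.mem_of_tendsto h1 h5
  have h7 : (Θ x).1 ∈ D := hCD h6
  refine ⟨h7, ?_⟩
  have h8 : Filter.Tendsto (fun i => f (Θ (u i)).1) Filter.atTop (𝓝 (f (Θ x).1)) :=
    (hG.cont.continuousAt (hG.isOpen.mem_nhds h7)).tendsto.comp h1
  exact le_of_tendsto_of_tendsto' h8 h2 fun i => (hu i).2.le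

omit [MeasurableSpace V] in
lemma M_subset_closure_K : gM Θ D f ⊆ closure (gK Θ D f) := by
  intro x hx
  obtain ⟨h0, h1⟩ := hx
  rw [mem_closure_iff_seq_limit]
  refine ⟨fun i : ℕ => x + ((1:ℝ) / (i + 1)) • gE Θ, fun i => ?_, ?_⟩
  · refine ⟨?_, ?_⟩
    · rw [fst_add_gE]; exact h0
    · rw [fst_add_gE, snd_add_gE, h1]
      have : (0:ℝ) < 1 / ((i:ℝ) + 1) := by positivity
      linarith
  · have h3 : Filter.Tendsto (fun n : ℕ => (1:ℝ) / (n + 1)) Filter.atTop (𝓝 0) :=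
      tendsto_one_div_add_atTop_nhds_zero_nat
    have h4 := (h3.smul_const (gE Θ)).const_add x
    simpa using h4

lemma Good.isClosed_M (hG : Good μ D f ℓ) : IsClosed (gM Θ D f) := by
  have h1 : gM Θ D f = closure (gK Θ D f) \ gK Θ D f := by
    ext x
    constructor
    · intro hx
      refine ⟨M_subset_closure_K hx, fun hK => ?_⟩
      have h1 := hK.2
      rw [hx.2] at h1
      exact lt_irrefl _ h1
    · rintro ⟨hx, hK⟩
      obtain ⟨h1, h2⟩ := hG.closure_K_subset hx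
      refine ⟨h1, le_antisymm ?_ h2⟩
      by_contra h3
      exact hK ⟨h1, not_le.mp h3⟩
  rw [h1]
  exact isClosed_closure.sdiff hG.isOpen_K

/-- the parametrisation of the tangent hyperplane -/
noncomputable def gL (Θ : E n ≃L[ℝ] V × ℝ) (l : V →L[ℝ] ℝ) : V →L[ℝ] E n :=
  (Θ.symm : V × ℝ →L[ℝ] E n).comp ((ContinuousLinearMap.id ℝ V).prod l)

omit [MeasurableSpace V] in
lemma section_eq {a : E n} (ha : a ∈ gM Θ D f) (τ : ℝ) :
    gK Θ D f ∩ {x | ⟪gN Θ (ℓ (Θ a).1), x - a⟫ = τ} =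
      (fun v => Θ.symm (0, f (Θ a).1 + τ - ℓ (Θ a).1 (Θ a).1) + gL Θ (ℓ (Θ a).1) v) ''
        {v | v ∈ D ∧ f v - f (Θ a).1 - ℓ (Θ a).1 (v - (Θ a).1) < τ} := by
  have key : ∀ v, Θ.symm (0, f (Θ a).1 + τ - ℓ (Θ a).1 (Θ a).1) + gL Θ (ℓ (Θ a).1) v =
      Θ.symm (v, f (Θ a).1 + τ + ℓ (Θ a).1 (v - (Θ a).1)) := by
    intro v
    unfold gL
    rw [ContinuousLinearMap.comp_apply]
    show Θ.symm _ + Θ.symm (v, ℓ (Θ a).1 v) = _
    rw [← map_add, Prod.mk_add_mk, zero_add, map_sub]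
    congr 2
    ring
  ext x
  constructor
  · rintro ⟨⟨hx1, hx2⟩, hx⟩
    have hx : ⟪gN Θ (ℓ (Θ a).1), x - a⟫ = τ := hx
    rw [inner_gN_sub ha] at hx
    refine ⟨(Θ x).1, ⟨hx1, by linarith⟩, ?_⟩
    simp only
    rw [key]
    have : f (Θ a).1 + τ + ℓ (Θ a).1 ((Θ x).1 - (Θ a).1) = (Θ x).2 := by linarith
    rw [this]
    simp
  · rintro ⟨v, ⟨hv1, hv2⟩, rfl⟩
    simp only
    rw [key]
    refine ⟨⟨?_, ?_⟩, ?_⟩
    · simpa using hv1
    · rw [ContinuousLinearEquiv.apply_symm_apply]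
      linarith
    · show ⟪gN Θ (ℓ (Θ a).1), _ - a⟫ = τ
      rw [inner_gN_sub ha, ContinuousLinearEquiv.apply_symm_apply]
      ring

lemma Good.compact_cap (hG : Good μ D f ℓ) {a : E n} (ha : a ∈ gM Θ D f) :
    IsCompact (gM Θ D f ∩ {x | ⟪gN Θ (ℓ (Θ a).1), x - a⟫ ≤ 1}) := by
  have hcl : IsClosed {x : E n | ⟪gN Θ (ℓ (Θ a).1), x - a⟫ ≤ 1} :=
    isClosed_le (by fun_prop) continuous_const
  obtain ⟨C, hC, hCD, hsub⟩ := hG.cpt (Θ a).1 ha.1 1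
  have h1 : ContinuousOn (fun v => Θ.symm (v, f v)) C :=
    Θ.symm.continuous.comp_continuousOn (continuousOn_id.prodMk (hG.cont.mono hCD))
  refine (hC.image_of_continuousOn h1).of_isClosed_subset (hG.isClosed_M.inter hcl) ?_
  rintro x ⟨hx, hx1⟩
  have hx1 : ⟪gN Θ (ℓ (Θ a).1), x - a⟫ ≤ 1 := hx1
  rw [inner_gN_M ha hx] at hx1
  refine ⟨(Θ x).1, hsub ⟨hx.1, hx1⟩, ?_⟩
  simp only
  rw [← hx.2]
  simp

lemma Good.bounded_section (hG : Good μ D f ℓ) {a : E n} (ha : a ∈ gM Θ D f) (τ : ℝ) :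
    Bornology.IsBounded (gK Θ D f ∩ {x | ⟪gN Θ (ℓ (Θ a).1), x - a⟫ = τ}) := by
  obtain ⟨C, hC, hCD, hsub⟩ := hG.cpt (Θ a).1 ha.1 τ
  rw [section_eq ha]
  have h1 : Continuous (fun v => Θ.symm (0, f (Θ a).1 + τ - ℓ (Θ a).1 (Θ a).1) +
    gL Θ (ℓ (Θ a).1) v) := by fun_prop
  exact (hC.image h1).isBounded.subset (image_mono fun v hv => hsub ⟨hv.1, hv.2.le⟩)

lemma Good.shrink (hG : Good μ D f ℓ) {a : E n} (ha : a ∈ gM Θ D f) {r : ℝ} (hr : 0 < r) :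
    ∃ ε > 0, ∀ t, 0 < t → t < ε →
      gM Θ D f ∩ hyperplane a (gnu Θ (ℓ (Θ a).1)) t ⊆ Metric.ball a r := by
  have hN := norm_gN_pos Θ (ℓ (Θ a).1)
  have hcomp : IsCompact ((gM Θ D f ∩ {x | ⟪gN Θ (ℓ (Θ a).1), x - a⟫ ≤ 1}) \ Metric.ball a r) :=
    (hG.compact_cap ha).diff Metric.isOpen_ball
  rcases ((gM Θ D f ∩ {x | ⟪gN Θ (ℓ (Θ a).1), x - a⟫ ≤ 1}) \
    Metric.ball a r).eq_empty_or_nonempty with hem | hne
  · refine ⟨1 / ‖gN Θ (ℓ (Θ a).1)‖, by positivity, fun t ht ht1 x hx => ?_⟩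
    by_contra hcon
    have : x ∈ ((gM Θ D f ∩ {x | ⟪gN Θ (ℓ (Θ a).1), x - a⟫ ≤ 1}) \ Metric.ball a r) := by
      refine ⟨⟨hx.1, ?_⟩, hcon⟩
      have h1 := mem_hyperplane_gnu.mp hx.2
      rw [lt_div_iff₀ hN] at ht1
      show ⟪gN Θ (ℓ (Θ a).1), x - a⟫ ≤ 1
      rw [h1]
      linarith
    rw [hem] at this
    exact this
  · obtain ⟨y, hy, hmin⟩ := hcomp.exists_isMinOn hne
      (f := fun x => ⟪gN Θ (ℓ (Θ a).1), x - a⟫) (by fun_prop)
    have hyM : y ∈ gM Θ D f := hy.1.1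
    have hya : y ≠ a := by
      rintro rfl
      exact hy.2 (Metric.mem_ball_self hr)
    have hpos : 0 < ⟪gN Θ (ℓ (Θ a).1), y - a⟫ := hG.inner_pos ha hyM hya
    refine ⟨min 1 ⟪gN Θ (ℓ (Θ a).1), y - a⟫ / ‖gN Θ (ℓ (Θ a).1)‖, by positivity,
      fun t ht ht1 x hx => ?_⟩
    by_contra hcon
    have h1 := mem_hyperplane_gnu.mp hx.2
    rw [lt_div_iff₀ hN] at ht1
    have h2 : ⟪gN Θ (ℓ (Θ a).1), x - a⟫ < 1 := by
      rw [h1]
      have := min_le_left 1 ⟪gN Θ (ℓ (Θ a).1), y - a⟫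
      linarith
    have h3 : ⟪gN Θ (ℓ (Θ a).1), x - a⟫ < ⟪gN Θ (ℓ (Θ a).1), y - a⟫ := by
      nth_rewrite 1 [h1]
      have := min_le_right 1 ⟪gN Θ (ℓ (Θ a).1), y - a⟫
      linarith
    have h4 := hmin (show x ∈ ((gM Θ D f ∩ {x | ⟪gN Θ (ℓ (Θ a).1), x - a⟫ ≤ 1}) \
      Metric.ball a r) from ⟨⟨hx.1, h2.le⟩, hcon⟩)
    simp only [mem_ofPred_eq] at h4
    linarith

lemma Good.isDomain (hG : Good μ D f ℓ) {a : E n} (ha : a ∈ gM Θ D f) {t : ℝ} (ht : 0 < t) :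
    IsDomainBoundedBy (hyperplane a (gnu Θ (ℓ (Θ a).1)) t)
      (gM Θ D f ∩ hyperplane a (gnu Θ (ℓ (Θ a).1)) t)
      (gK Θ D f ∩ hyperplane a (gnu Θ (ℓ (Θ a).1)) t) := by
  have hN := norm_gN_pos Θ (ℓ (Θ a).1)
  set H := hyperplane a (gnu Θ (ℓ (Θ a).1)) t with hH
  have hcv : Convex ℝ (gK Θ D f ∩ H) := hG.convex_K.inter (convex_hyperplane' a _ t)
  set y := a + (‖gN Θ (ℓ (Θ a).1)‖ * t) • gE Θ with hy
  have hyK : y ∈ gK Θ D f := by
    refine ⟨?_, ?_⟩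
    · rw [hy, fst_add_gE]; exact ha.1
    · rw [hy, fst_add_gE, snd_add_gE, ha.2]
      have : 0 < ‖gN Θ (ℓ (Θ a).1)‖ * t := by positivity
      linarith
  have hyH : y ∈ H := by
    rw [hH, mem_hyperplane_gnu, hy, add_sub_cancel_left, real_inner_smul_right, inner_gN_gE,
      mul_one]
  refine ⟨⟨gK Θ D f, hG.isOpen_K, rfl⟩, ⟨⟨y, hyK, hyH⟩, hcv.isPreconnected⟩, ?_, ?_⟩
  · have h1 : gK Θ D f ∩ H = gK Θ D f ∩
        {x | ⟪gN Θ (ℓ (Θ a).1), x - a⟫ = ‖gN Θ (ℓ (Θ a).1)‖ * t} := by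
      congr 1
      ext x
      exact mem_hyperplane_gnu
    rw [h1]
    exact hG.bounded_section ha _
  · ext x
    constructor
    · rintro ⟨hx1, hx2⟩
      have hxH : x ∈ H :=
        (isClosed_hyperplane' a _ t).closure_subset_iff.mpr inter_subset_right hx1
      obtain ⟨h1, h2⟩ := hG.closure_K_subset (closure_mono inter_subset_left hx1)
      refine ⟨⟨h1, ?_⟩, hxH⟩
      by_contra hne
      exact hx2 ⟨⟨h1, lt_of_le_of_ne h2 (Ne.symm hne)⟩, hxH⟩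
    · rintro ⟨hxM, hxH⟩
      refine ⟨?_, fun hx => ?_⟩
      · have hseg : openSegment ℝ y x ⊆ gK Θ D f ∩ H := by
          intro w hw
          refine ⟨?_, ?_⟩
          · have := hG.convex_K.openSegment_interior_closure_subset_interior
              (by rw [hG.isOpen_K.interior_eq]; exact hyK) (M_subset_closure_K hxM) hw
            rwa [hG.isOpen_K.interior_eq] at this
          · exact (convex_hyperplane' a _ t).openSegment_subset hyH hxH hw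
        have := closure_mono hseg
        rw [closure_openSegment] at this
        exact this (right_mem_segment ℝ y x)
      · have h1 := hx.1.2
        rw [hxM.2] at h1
        exact lt_irrefl _ h1

theorem Good.smooth_convex (hG : Good μ D f ℓ) (Θ : E n ≃L[ℝ] V × ℝ) :
    IsSmoothStrictlyConvexHypersurface (gM Θ D f) :=
  ⟨hG.isConnected, fun _ ha => ⟨_, hG.isInwardNormal ha⟩⟩

theorem Good.lpi [FiniteDimensional ℝ V] [BorelSpace V] [μ.IsAddHaarMeasure] (hG : Good μ D f ℓ)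
    (Θ : E n ≃L[ℝ] V × ℝ) : LocallyPolynomiallyIntegrable (gM Θ D f) := by
  intro a ha
  have hd : Module.finrank ℝ V = n - 1 := by
    have h1 := Θ.toLinearEquiv.finrank_eq
    rw [Module.finrank_prod] at h1
    simp at h1
    omega
  obtain ⟨c, hc, hL⟩ := measure_linear μ hd (gL Θ (ℓ (Θ a).1) : V →ₗ[ℝ] E n)
  obtain ⟨P, hP⟩ := hG.vol (Θ a).1 ha.1
  have hN := norm_gN_pos Θ (ℓ (Θ a).1)
  refine ⟨_, hG.isInwardNormal ha,
    Polynomial.C c * P.comp (Polynomial.C ‖gN Θ (ℓ (Θ a).1)‖ * Polynomial.X), 1, one_pos,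
    fun r hr _ => ?_⟩
  obtain ⟨ε, hε, hsh⟩ := hG.shrink ha hr
  refine ⟨ε, hε, fun t ht htε => ⟨gK Θ D f ∩ hyperplane a (gnu Θ (ℓ (Θ a).1)) t, ?_, ?_⟩⟩
  · have h1 : gM Θ D f ∩ Metric.ball a r ∩ hyperplane a (gnu Θ (ℓ (Θ a).1)) t =
        gM Θ D f ∩ hyperplane a (gnu Θ (ℓ (Θ a).1)) t := by
      ext x
      constructor
      · rintro ⟨⟨h1, h2⟩, h3⟩
        exact ⟨h1, h3⟩
      · rintro ⟨h1, h3⟩
        exact ⟨⟨h1, hsh t ht htε ⟨h1, h3⟩⟩, h3⟩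
    rw [h1]
    exact hG.isDomain ha ht
  · have h1 : gK Θ D f ∩ hyperplane a (gnu Θ (ℓ (Θ a).1)) t = gK Θ D f ∩
        {x | ⟪gN Θ (ℓ (Θ a).1), x - a⟫ = ‖gN Θ (ℓ (Θ a).1)‖ * t} := by
      congr 1
      ext x
      exact mem_hyperplane_gnu
    rw [h1, section_eq ha]
    set τ := ‖gN Θ (ℓ (Θ a).1)‖ * t with hτ
    have hτ0 : 0 < τ := by positivity
    have h2 : (fun v => Θ.symm (0, f (Θ a).1 + τ - ℓ (Θ a).1 (Θ a).1) +
        gL Θ (ℓ (Θ a).1) v) '' {v | v ∈ D ∧ f v - f (Θ a).1 - ℓ (Θ a).1 (v - (Θ a).1) < τ} =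
        (fun x => Θ.symm (0, f (Θ a).1 + τ - ℓ (Θ a).1 (Θ a).1) + x) ''
          ((gL Θ (ℓ (Θ a).1) : V →ₗ[ℝ] E n) ''
            {v | v ∈ D ∧ f v - f (Θ a).1 - ℓ (Θ a).1 (v - (Θ a).1) < τ}) := by
      rw [image_image]
      rfl
    rw [h2, (isometry_add_left _).euclideanHausdorffMeasure_image, hL _ (hG.meas _ ha.1 τ),
      hP τ hτ0, ← ENNReal.ofReal_mul hc]
    congr 1
    simp [hτ]

end

end Pool.Agent.Y106.LPI
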