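import Pool.Agent.Y106.LPI.Vol

/-!
# Induction: the caps of the family have polynomial volume
-/

open MeasureTheory Set Topology
open scoped ENNReal NNReal RealInnerProductSpace ContDiff MeasureTheory

namespace Pool.Agent.Y106.LPI

lemma measurable_PP (r : ℕ) : Measurable (PP (r := r)) := continuous_PP.measurable

lemma measurable_BB : ∀ (r : ℕ) (l : ℝ) (a : X r), Measurable (BB r l a) := by
  intro r
  induction r with
  | zero =>
    intro l a
    exact measurable_const
  | succ r ih =>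
    intro l a
    have h1 := ih (l * mu a) (tl a)
    have h2 : Measurable (fun x : X (r + 1) => PP (tl x)) :=
      (measurable_PP r).comp tl.continuous.measurable
    have h3 : Measurable (fun x : X (r + 1) => BB r (l * mu a) (tl a) (tl x)) :=
      h1.comp tl.continuous.measurable
    have h4 : BB (r + 1) l a = fun x => l * (1 / PP (tl x) - mu a * (x 0).1) ^ 2 / (x 0).1 +
      ((x 0).2 - (a 0).2 / (a 0).1 * (x 0).1) ^ 2 / (x 0).1 +
      2 * BB r (l * mu a) (tl a) (tl x) := rfl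
    rw [h4]
    fun_prop

lemma nice_step {r : ℕ} {l : ℝ} {a : X (r + 1)} (hl : 0 < l) (ha : a ∈ Dom (r + 1))
    (ih : ∀ k : ℕ, Nice (fun φ => ∫⁻ x in Dom r, ENNReal.ofReal ((1 / PP x) ^ k) *
      φ (BB r (l * mu a) (tl a) x))) {W : ℝ → ℝ → ℝ} (hW : NN2 W) :
    Nice (fun φ => ∫⁻ y in Dom r, ∫⁻ u in Ioi (0:ℝ),
      ENNReal.ofReal (W u (1 / PP y / mu a)) *
        ∫⁻ v, φ (l * mu a ^ 2 * u ^ 2 + v ^ 2 + 2 * BB r (l * mu a) (tl a) y)) := by
  have hm := mu_pos ha
  have hBm := measurable_BB r (l * mu a) (tl a)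
  have hPm := measurable_PP r
  induction hW with
  | mono c hc i k =>
    obtain ⟨C, hC⟩ := polar i (κ := l * mu a ^ 2) (by positivity)
    have h3 := ((ih k).shift i).const_mul (Real.toNNReal (c / mu a ^ k) * C)
    refine h3.congr fun φ hφ => ?_
    have e1 : ∀ y ∈ Dom r, ∫⁻ u in Ioi (0:ℝ),
        ENNReal.ofReal (c * u ^ (2 * i) * (1 / PP y / mu a) ^ k) *
          ∫⁻ v, φ (l * mu a ^ 2 * u ^ 2 + v ^ 2 + 2 * BB r (l * mu a) (tl a) y) =
        ENNReal.ofReal (c / mu a ^ k) * C * (ENNReal.ofReal ((1 / PP y) ^ k) *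
          ∫⁻ ρ in Ioi (0:ℝ), ENNReal.ofReal (ρ ^ i) *
            φ (ρ + 2 * BB r (l * mu a) (tl a) y)) := by
      intro y hy
      have hP := PP_pos hy
      have e2 := hC (fun τ => φ (τ + 2 * BB r (l * mu a) (tl a) y)) (by fun_prop)
      have e3 : ∀ u : ℝ, ENNReal.ofReal (c * u ^ (2 * i) * (1 / PP y / mu a) ^ k) *
          ∫⁻ v, φ (l * mu a ^ 2 * u ^ 2 + v ^ 2 + 2 * BB r (l * mu a) (tl a) y) =
          (ENNReal.ofReal (c / mu a ^ k) * ENNReal.ofReal ((1 / PP y) ^ k)) *
          (ENNReal.ofReal (u ^ (2 * i)) *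
          ∫⁻ v, φ (l * mu a ^ 2 * u ^ 2 + v ^ 2 + 2 * BB r (l * mu a) (tl a) y)) := by
        intro u
        rw [← mul_assoc, ← ENNReal.ofReal_mul (by positivity), ← ENNReal.ofReal_mul
          (by positivity)]
        congr 2
        rw [div_pow]
        ring
      simp_rw [e3]
      rw [lintegral_const_mul' _ _ (ENNReal.mul_ne_top ENNReal.ofReal_ne_top
        ENNReal.ofReal_ne_top), e2]
      unfold Im
      ring
    rw [setLIntegral_congr_fun (isOpen_Dom r).measurableSet e1, lintegral_const_mul' _ _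
      (ENNReal.mul_ne_top ENNReal.ofReal_ne_top ENNReal.coe_ne_top)]
    have e4 : ∀ y : X r, ENNReal.ofReal ((1 / PP y) ^ k) *
          ∫⁻ ρ in Ioi (0:ℝ), ENNReal.ofReal (ρ ^ i) * φ (ρ + 2 * BB r (l * mu a) (tl a) y) =
        ∫⁻ ρ in Ioi (0:ℝ), ENNReal.ofReal ((1 / PP y) ^ k) * (ENNReal.ofReal (ρ ^ i) *
          φ (ρ + 2 * BB r (l * mu a) (tl a) y)) := by
      intro y
      rw [lintegral_const_mul' _ _ ENNReal.ofReal_ne_top]
    simp_rw [e4]
    rw [lintegral_lintegral_swap]
    · rw [ENNReal.coe_mul]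
      congr 1
      refine lintegral_congr fun ρ => ?_
      rw [← lintegral_const_mul' _ _ ENNReal.ofReal_ne_top]
      refine lintegral_congr fun y => ?_
      ring
    · apply Measurable.aemeasurable
      have hB2 : Measurable fun p : X r × ℝ => BB r (l * mu a) (tl a) p.1 :=
        hBm.comp measurable_fst
      have hP2 : Measurable fun p : X r × ℝ => PP p.1 := hPm.comp measurable_fst
      unfold Function.uncurry
      fun_prop
  | @add f g hf hg ihf ihg =>
    refine (ihf.add ihg).congr fun φ hφ => ?_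
    have hinner : Measurable fun p : X r × ℝ =>
        ∫⁻ v, φ (l * mu a ^ 2 * p.2 ^ 2 + v ^ 2 + 2 * BB r (l * mu a) (tl a) p.1) := by
      apply Measurable.lintegral_prod_right' (f := fun q : (X r × ℝ) × ℝ =>
        φ (l * mu a ^ 2 * q.1.2 ^ 2 + q.2 ^ 2 + 2 * BB r (l * mu a) (tl a) q.1.1))
      have hB2 : Measurable fun q : (X r × ℝ) × ℝ => BB r (l * mu a) (tl a) q.1.1 :=
        hBm.comp (by fun_prop)
      fun_prop
    have hfm : ∀ {f : ℝ → ℝ → ℝ}, NN2 f → Measurable fun p : X r × ℝ =>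
        ENNReal.ofReal (f p.2 (1 / PP p.1 / mu a)) := by
      intro f hf
      have hP2 : Measurable fun p : X r × ℝ => PP p.1 := hPm.comp measurable_fst
      have h5 : Measurable fun p : X r × ℝ => (p.2, 1 / PP p.1 / mu a) := by fun_prop
      have h6 := hf.measurable.comp h5
      exact h6.ennreal_ofReal
    have e1 : ∀ y ∈ Dom r, ∫⁻ u in Ioi (0:ℝ),
        ENNReal.ofReal (f u (1 / PP y / mu a) + g u (1 / PP y / mu a)) *
          ∫⁻ v, φ (l * mu a ^ 2 * u ^ 2 + v ^ 2 + 2 * BB r (l * mu a) (tl a) y) =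
        (∫⁻ u in Ioi (0:ℝ), ENNReal.ofReal (f u (1 / PP y / mu a)) *
          ∫⁻ v, φ (l * mu a ^ 2 * u ^ 2 + v ^ 2 + 2 * BB r (l * mu a) (tl a) y)) +
        ∫⁻ u in Ioi (0:ℝ), ENNReal.ofReal (g u (1 / PP y / mu a)) *
          ∫⁻ v, φ (l * mu a ^ 2 * u ^ 2 + v ^ 2 + 2 * BB r (l * mu a) (tl a) y) := by
      intro y hy
      have hP := PP_pos hy
      have hb : 0 ≤ 1 / PP y / mu a := by positivity
      have hy2 : Measurable fun u : ℝ => (y, u) := by fun_prop
      have hmf : Measurable fun u : ℝ => ENNReal.ofReal (f u (1 / PP y / mu a)) *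
          ∫⁻ v, φ (l * mu a ^ 2 * u ^ 2 + v ^ 2 + 2 * BB r (l * mu a) (tl a) y) :=
        ((hfm hf).comp hy2).mul (hinner.comp hy2)
      rw [← lintegral_add_left hmf]
      refine lintegral_congr fun u => ?_
      rw [ENNReal.ofReal_add (hf.nonneg u hb) (hg.nonneg u hb), add_mul]
    rw [setLIntegral_congr_fun (isOpen_Dom r).measurableSet e1]
    rw [lintegral_add_left]
    exact ((hfm hf).mul hinner).lintegral_prod_right' (ν := volume.restrict (Ioi (0:ℝ)))

theorem nice_GG : ∀ (r : ℕ) (l : ℝ) (a : X r) (j : ℕ), 0 < l → a ∈ Dom r →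
    Nice (fun φ => ∫⁻ x in Dom r, ENNReal.ofReal ((1 / PP x) ^ j) * φ (BB r l a x)) := by
  intro r
  induction r with
  | zero =>
    intro l a j _ _
    refine nice_eval.congr fun φ hφ => ?_
    have h1 : Dom 0 = univ := by
      ext x
      simp [Dom]
    have h2 : (volume : Measure (X 0)) = Measure.dirac (fun i => i.elim0) := by
      rw [volume_pi]
      exact Measure.pi_of_empty _ _
    rw [h1, Measure.restrict_univ, h2, lintegral_dirac]
    simp [PP, BB]
  | succ r ih =>
    intro l a j hl ha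
    have hm := mu_pos ha
    obtain ⟨W, hW, h2⟩ := two_dim j
    have key := nice_step hl ha
      (fun k => ih (l * mu a) (tl a) k (mul_pos hl hm) (tl_mem ha)) hW
    refine (key.const_mul (Real.toNNReal (2 * mu a ^ (2 * j)))).congr fun φ hφ => ?_
    have hBm := measurable_BB r (l * mu a) (tl a)
    have hPm := measurable_PP r
    set γ := (a 0).2 / (a 0).1 with hγ
    let F : (ℝ × ℝ) × X r → ℝ≥0∞ := fun z =>
      ENNReal.ofReal (((1 / PP z.2) ^ 2 / z.1.1) ^ j) *
        φ (l * (1 / PP z.2 - mu a * z.1.1) ^ 2 / z.1.1 + (z.1.2 - γ * z.1.1) ^ 2 / z.1.1 +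
          2 * BB r (l * mu a) (tl a) z.2)
    have hF : Measurable F := by
      have hB2 : Measurable fun p : (ℝ × ℝ) × X r => BB r (l * mu a) (tl a) p.2 :=
        hBm.comp measurable_snd
      have hP2 : Measurable fun p : (ℝ × ℝ) × X r => PP p.2 := hPm.comp measurable_snd
      fun_prop
    have hmp := volume_preserving_piFinSuccAbove (fun _ : Fin (r + 1) => ℝ × ℝ) 0
    have hS : MeasurableSet {p : ℝ × ℝ | 0 < p.1} :=
      measurableSet_lt measurable_const measurable_fst
    have hD : MeasurableSet (Dom r) := (isOpen_Dom r).measurableSet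
    have hpre : Dom (r + 1) = (MeasurableEquiv.piFinSuccAbove (fun _ : Fin (r + 1) => ℝ × ℝ) 0) ⁻¹'
        ({p : ℝ × ℝ | 0 < p.1} ×ˢ Dom r) := by
      ext x
      constructor
      · intro hx
        exact ⟨hx 0, fun i => hx i.succ⟩
      · rintro ⟨h0, h1⟩ i
        refine Fin.cases h0 (fun i => h1 i) i
    have h3 : ∫⁻ x in Dom (r + 1), ENNReal.ofReal ((1 / PP x) ^ j) * φ (BB (r + 1) l a x) =
        ∫⁻ z in {p : ℝ × ℝ | 0 < p.1} ×ˢ Dom r, F z := by
      rw [hpre, ← hmp.setLIntegral_comp_preimage (hS.prod hD) hF]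
      refine setLIntegral_congr_fun (by rw [← hpre]; exact (isOpen_Dom (r + 1)).measurableSet) ?_
      intro x hx
      rw [← hpre] at hx
      have h4 : F ((MeasurableEquiv.piFinSuccAbove (fun _ : Fin (r + 1) => ℝ × ℝ) 0) x) =
          F (x 0, tl x) := rfl
      simp only
      rw [h4, PP_succ, BB]
      have hP := PP_pos (tl_mem hx)
      have h0 := hx 0
      simp only [F]
      congr 3
      field_simp
    rw [h3, Measure.volume_eq_prod, ← Measure.prod_restrict, lintegral_prod_symm' _ hF]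
    have h5 : ∀ y ∈ Dom r, ∫⁻ p in {p : ℝ × ℝ | 0 < p.1}, F (p, y) =
        ENNReal.ofReal (2 * mu a ^ (2 * j)) * ∫⁻ u in Ioi (0:ℝ),
          ENNReal.ofReal (W u (1 / PP y / mu a)) *
        ∫⁻ v, φ (l * mu a ^ 2 * u ^ 2 + v ^ 2 + 2 * BB r (l * mu a) (tl a) y) := by
      intro y hy
      have hP := PP_pos hy
      exact h2 (1 / PP y) (mu a) l γ (by positivity) hm hl
        (fun s => φ (s + 2 * BB r (l * mu a) (tl a) y)) (by fun_prop)
    rw [setLIntegral_congr_fun hD h5, lintegral_const_mul' _ _ ENNReal.ofReal_ne_top]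
    rfl

lemma Im_indicator (m : ℕ) {T : ℝ} (hT : 0 < T) :
    Im m ((Iio T).indicator fun _ => 1) = ENNReal.ofReal (T ^ (m + 1) / (m + 1)) := by
  unfold Im
  have h1 : ∀ τ : ℝ, ENNReal.ofReal (τ ^ m) * (Iio T).indicator (fun _ => (1:ℝ≥0∞)) τ =
      (Iio T).indicator (fun τ => ENNReal.ofReal (τ ^ m)) τ := by
    intro τ
    by_cases h : τ ∈ Iio T
    · simp [indicator_of_mem h]
    · simp [indicator_of_notMem h]
  simp_rw [h1]
  rw [setLIntegral_indicator measurableSet_Iio, inter_comm, Ioi_inter_Iio,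
    setLIntegral_congr (Ioo_ae_eq_Ioc (a := (0:ℝ)) (b := T)),
    ← ofReal_integral_eq_lintegral_ofReal]
  · rw [← intervalIntegral.integral_of_le hT.le, integral_pow]
    congr 1
    simp
  · exact ((continuous_pow m).integrableOn_Icc).mono_set Ioc_subset_Icc_self
  · filter_upwards [ae_restrict_mem measurableSet_Ioc] with τ hτ
    exact pow_nonneg hτ.1.le m

theorem vol_poly (r : ℕ) {l : ℝ} (hl : 0 < l) {a : X r} (ha : a ∈ Dom r) :
    ∃ P : Polynomial ℝ, ∀ T : ℝ, 0 < T →
      volume {x | x ∈ Dom r ∧ BB r l a x < T} = ENNReal.ofReal (P.eval T) := by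
  obtain ⟨c0, c, h⟩ := nice_GG r l a 0 hl ha
  refine ⟨Polynomial.C (c0 : ℝ) + ∑ m ∈ c.support,
    Polynomial.C ((c m : ℝ) / (m + 1)) * Polynomial.X ^ (m + 1), fun T hT => ?_⟩
  have h1 := h ((Iio T).indicator fun _ => 1) (Measurable.indicator measurable_const
    measurableSet_Iio)
  beta_reduce at h1
  have h2 : ∫⁻ x in Dom r, ENNReal.ofReal ((1 / PP x) ^ 0) *
      (Iio T).indicator (fun _ => 1) (BB r l a x) =
      volume {x | x ∈ Dom r ∧ BB r l a x < T} := by
    have h3 : ∀ x : X r, ENNReal.ofReal ((1 / PP x) ^ 0) *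
        (Iio T).indicator (fun _ => (1:ℝ≥0∞)) (BB r l a x) =
        ((BB r l a) ⁻¹' Iio T).indicator (fun _ => 1) x := by
      intro x
      rw [pow_zero, ENNReal.ofReal_one, one_mul]
      rfl
    simp_rw [h3]
    rw [lintegral_indicator ((measurable_BB r l a) measurableSet_Iio)]
    simp only [lintegral_const, one_mul, Measure.restrict_apply MeasurableSet.univ, univ_inter]
    rw [Measure.restrict_apply ((measurable_BB r l a) measurableSet_Iio), inter_comm]
    rfl
  rw [← h2, h1, indicator_of_mem (show (0:ℝ) ∈ Iio T from hT), mul_one, Finsupp.sum]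
  have h4 : ∀ m ∈ c.support, (c m : ℝ≥0∞) * Im m ((Iio T).indicator fun _ => 1) =
      ENNReal.ofReal ((c m : ℝ) * (T ^ (m + 1) / (m + 1))) := by
    intro m _
    rw [Im_indicator m hT, ENNReal.ofReal_mul (by positivity), ENNReal.ofReal_coe_nnreal]
  rw [Finset.sum_congr rfl h4, ← ENNReal.ofReal_sum_of_nonneg (fun m _ => by positivity),
    ← ENNReal.ofReal_coe_nnreal (p := c0), ← ENNReal.ofReal_add (by positivity)
      (Finset.sum_nonneg fun m _ => by positivity)]
  congr 1
  rw [Polynomial.eval_add, Polynomial.eval_C, Polynomial.eval_finset_sum]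
  congr 1
  refine Finset.sum_congr rfl fun m _ => ?_
  simp
  ring

theorem good_ff (r : ℕ) : Good (volume : Measure (X r)) (Dom r) (ff 1) (slo r 1) where
  isOpen := isOpen_Dom r
  convex := convex_Dom r
  nonempty := ⟨_, one_mem_Dom r⟩
  smooth := contDiffOn_ff 1
  pos := by
    intro a ha x hx hne
    rw [ff_sub r 1 a x ha hx]
    rcases (BB_nonneg r 1 a x one_pos ha hx).lt_or_eq with h | h
    · exact h
    · exact absurd (eq_of_BB r 1 a x one_pos ha hx h.symm) hne
  cpt := by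
    intro a ha T
    obtain ⟨C, hC, hCD, hsub⟩ := cpt_aux r 1 a |T| one_pos ha (abs_nonneg T)
    refine ⟨C, hC, hCD, fun x hx => hsub ⟨hx.1, ?_⟩⟩
    rw [← ff_sub r 1 a x ha hx.1]
    exact hx.2.trans (le_abs_self T)
  meas := by
    intro a ha T
    have h1 : Measurable fun x : X r => slo r 1 a (x - a) := by fun_prop
    have h3 : Measurable fun x : X r => ff 1 x - ff 1 a - slo r 1 a (x - a) :=
      ((measurable_ff (r := r) 1).sub_const _).sub h1
    exact (isOpen_Dom r).measurableSet.inter (measurableSet_lt h3 measurable_const)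
  vol := by
    intro a ha
    obtain ⟨P, hP⟩ := vol_poly r one_pos ha
    refine ⟨P, fun T hT => ?_⟩
    rw [← hP T hT]
    congr 1
    ext x
    constructor
    · rintro ⟨h1, h2⟩
      rw [ff_sub r 1 a x ha h1] at h2
      exact ⟨h1, h2⟩
    · rintro ⟨h1, h2⟩
      refine ⟨h1, ?_⟩
      rw [ff_sub r 1 a x ha h1]
      exact h2

end Pool.Agent.Y106.LPI
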