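import Pool.Agent.Y106.LPI.Graph

/-!
# Local version: graphs of convex functions all whose small caps have polynomial volume
-/

open MeasureTheory Set Topology
open scoped ENNReal RealInnerProductSpace ContDiff MeasureTheory

namespace Pool.Agent.Y106.LPI

open Pool.Agent.Results.MP_bfe3ea_gt.VinbergCone (E hyperplane IsUnitNormal IsInwardNormal
  IsSmoothStrictlyConvexHypersurface IsDomainBoundedBy LocallyPolynomiallyIntegrable)

/-- smooth strictly convex functions `f` on an open convex set `D` (with slopes `ℓ`) all whose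
small caps are relatively compact and have polynomial volume -/
structure LGood {V : Type*} [NormedAddCommGroup V] [NormedSpace ℝ V] [MeasurableSpace V]
    (μ : Measure V) (D : Set V) (f : V → ℝ) (ℓ : V → V →L[ℝ] ℝ) : Prop where
  isOpen : IsOpen D
  convex : Convex ℝ D
  nonempty : D.Nonempty
  smooth : ContDiffOn ℝ ∞ f D
  pos : ∀ a ∈ D, ∀ x ∈ D, x ≠ a → 0 < f x - f a - ℓ a (x - a)
  cpt : ∀ a ∈ D, ∃ T : ℝ, 0 < T ∧ ∃ C, IsCompact C ∧ C ⊆ D ∧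
    {x | x ∈ D ∧ f x - f a - ℓ a (x - a) ≤ T} ⊆ C
  meas : ∀ a ∈ D, ∀ T : ℝ, MeasurableSet {x | x ∈ D ∧ f x - f a - ℓ a (x - a) < T}
  vol : ∀ a ∈ D, ∃ P : Polynomial ℝ, ∃ T₀ : ℝ, 0 < T₀ ∧ ∀ T : ℝ, 0 < T → T < T₀ →
    μ {x | x ∈ D ∧ f x - f a - ℓ a (x - a) < T} = ENNReal.ofReal (P.eval T)

section

variable {V : Type*} [NormedAddCommGroup V] [NormedSpace ℝ V] {n : ℕ}
variable [MeasurableSpace V] {μ : Measure V} {D : Set V} {f : V → ℝ} {ℓ : V → V →L[ℝ] ℝ}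

lemma LGood.nonneg (hG : LGood μ D f ℓ) {a x : V} (ha : a ∈ D) (hx : x ∈ D) :
    0 ≤ f x - f a - ℓ a (x - a) := by
  by_cases h : x = a
  · subst h; simp
  · exact (hG.pos a ha x hx h).le

lemma LGood.hasFDerivAt (hG : LGood μ D f ℓ) {a : V} (ha : a ∈ D) : HasFDerivAt f (ℓ a) a := by
  have h1 : DifferentiableAt ℝ f a :=
    (hG.smooth.differentiableOn (by simp)).differentiableAt (hG.isOpen.mem_nhds ha)
  have h2 : HasFDerivAt (fun x => f x - f a - ℓ a (x - a)) (fderiv ℝ f a - ℓ a) a := by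
    have h3 : HasFDerivAt (fun x => ℓ a (x - a)) (ℓ a) a :=
      (ℓ a).hasFDerivAt.comp a ((hasFDerivAt_id a).sub_const a)
    exact (h1.hasFDerivAt.sub_const (f a)).sub h3
  have h4 : IsLocalMin (fun x => f x - f a - ℓ a (x - a)) a := by
    filter_upwards [hG.isOpen.mem_nhds ha] with x hx
    have := hG.nonneg ha hx
    simpa using this
  have h5 := h4.hasFDerivAt_eq_zero h2
  rw [← sub_eq_zero.mp h5]
  exact h1.hasFDerivAt

lemma LGood.cont (hG : LGood μ D f ℓ) : ContinuousOn f D := hG.smooth.continuousOn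

variable {Θ : E n ≃L[ℝ] V × ℝ}

lemma LGood.inner_pos (hG : LGood μ D f ℓ) {a x : E n} (ha : a ∈ gM Θ D f) (hx : x ∈ gM Θ D f)
    (hne : x ≠ a) : 0 < ⟪gN Θ (ℓ (Θ a).1), x - a⟫ := by
  rw [inner_gN_M ha hx]
  refine hG.pos _ ha.1 _ hx.1 fun h => hne ?_
  apply Θ.injective
  refine Prod.ext h ?_
  rw [ha.2, hx.2, h]

lemma LGood.isUnitNormal (hG : LGood μ D f ℓ) {a : E n} (ha : a ∈ gM Θ D f) :
    IsUnitNormal (gM Θ D f) a (gnu Θ (ℓ (Θ a).1)) := by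
  have hc : Continuous fun x : E n => (Θ x).1 := by fun_prop
  refine ⟨norm_gnu Θ _, (fun x => (Θ x).1) ⁻¹' D, fun x => (Θ x).2 - f (Θ x).1,
    ‖gN Θ (ℓ (Θ a).1)‖, hG.isOpen.preimage hc, ha.1, ?_, (norm_gN_pos Θ _).ne', ?_, ?_⟩
  · have h1 : ContDiff ℝ ∞ fun x : E n => (Θ x).1 := by fun_prop
    have h2 : ContDiff ℝ ∞ fun x : E n => (Θ x).2 := by fun_prop
    exact h2.contDiffOn.sub (hG.smooth.comp h1.contDiffOn fun x hx => hx)
  · have h0 : ‖gN Θ (ℓ (Θ a).1)‖ • gnu Θ (ℓ (Θ a).1) = gN Θ (ℓ (Θ a).1) := by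
      unfold gnu
      rw [smul_smul, mul_inv_cancel₀ (norm_gN_pos Θ _).ne', one_smul]
    rw [h0, hasGradientAt_iff_hasFDerivAt]
    unfold gN
    rw [LinearIsometryEquiv.apply_symm_apply]
    have h1 : HasFDerivAt (fun x : E n => Θ x) (Θ : E n →L[ℝ] V × ℝ) a := Θ.hasFDerivAt
    have h2 : HasFDerivAt (fun x : E n => (Θ x).1)
      ((ContinuousLinearMap.fst ℝ V ℝ).comp (Θ : E n →L[ℝ] V × ℝ)) a := h1.fst
    have h3 : HasFDerivAt (fun x : E n => (Θ x).2)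
      ((ContinuousLinearMap.snd ℝ V ℝ).comp (Θ : E n →L[ℝ] V × ℝ)) a := h1.snd
    have h4 := h3.sub ((hG.hasFDerivAt ha.1).comp a h2)
    exact h4
  · ext x
    constructor
    · rintro ⟨⟨h0, h1⟩, -⟩
      exact ⟨h0, sub_eq_zero.mpr h1⟩
    · rintro ⟨h0, h1⟩
      exact ⟨⟨h0, sub_eq_zero.mp h1⟩, h0⟩

lemma LGood.isInwardNormal (hG : LGood μ D f ℓ) {a : E n} (ha : a ∈ gM Θ D f) :
    IsInwardNormal (gM Θ D f) a (gnu Θ (ℓ (Θ a).1)) := by
  refine ⟨hG.isUnitNormal ha, fun x hx hne => ?_⟩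
  rw [inner_gnu]
  exact div_pos (hG.inner_pos ha hx hne) (norm_gN_pos Θ _)

lemma LGood.isConnected (hG : LGood μ D f ℓ) : IsConnected (gM Θ D f) := by
  have h1 : gM Θ D f = (fun v => Θ.symm (v, f v)) '' D := by
    ext x
    constructor
    · rintro ⟨h0, h1⟩
      refine ⟨(Θ x).1, h0, ?_⟩
      simp only
      rw [← h1]
      simp
    · rintro ⟨v, hv, rfl⟩
      simp [gM, hv]
  rw [h1]
  refine IsConnected.image ⟨hG.nonempty, hG.convex.isPreconnected⟩ _ ?_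
  exact Θ.symm.continuous.comp_continuousOn (continuousOn_id.prodMk hG.cont)

lemma LGood.isOpen_K (hG : LGood μ D f ℓ) : IsOpen (gK Θ D f) := by
  have h1 : IsOpen {w : V × ℝ | w.1 ∈ D ∧ f w.1 < w.2} := by
    rw [isOpen_iff_mem_nhds]
    rintro ⟨v, z⟩ ⟨hv, hz⟩
    have h2 : ContinuousAt (fun w : V × ℝ => f w.1) (v, z) :=
      ContinuousAt.comp (f := Prod.fst) (hG.cont.continuousAt (hG.isOpen.mem_nhds hv))
        continuousAt_fst
    have h3 : ∀ᶠ w : V × ℝ in 𝓝 (v, z), f w.1 < w.2 :=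
      h2.eventually_lt continuousAt_snd hz
    have h4 : ∀ᶠ w : V × ℝ in 𝓝 (v, z), w.1 ∈ D :=
      continuousAt_fst.eventually (hG.isOpen.mem_nhds hv)
    filter_upwards [h3, h4] with w h5 h6
    exact ⟨h6, h5⟩
  exact h1.preimage Θ.continuous

lemma LGood.convex_K (hG : LGood μ D f ℓ) : Convex ℝ (gK Θ D f) := by
  intro x hx y hy α β hα hβ hαβ
  obtain ⟨hx0, hx1⟩ := hx
  obtain ⟨hy0, hy1⟩ := hy
  have h1 : (Θ (α • x + β • y)).1 = α • (Θ x).1 + β • (Θ y).1 := by simp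
  have h2 : (Θ (α • x + β • y)).2 = α * (Θ x).2 + β * (Θ y).2 := by simp
  have h3 : α • (Θ x).1 + β • (Θ y).1 ∈ D := hG.convex hx0 hy0 hα hβ hαβ
  set c := α • (Θ x).1 + β • (Θ y).1 with hc
  have h4 := hG.nonneg h3 hx0
  have h5 := hG.nonneg h3 hy0
  have h6 : α * ℓ c ((Θ x).1 - c) + β * ℓ c ((Θ y).1 - c) = 0 := by
    rw [map_sub, map_sub]
    have h7 : ℓ c c = α * ℓ c (Θ x).1 + β * ℓ c (Θ y).1 := by
      nth_rewrite 2 [hc]
      rw [map_add, map_smul, map_smul, smul_eq_mul, smul_eq_mul]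
    have h8 : β = 1 - α := by linarith
    rw [h7, h8]
    ring
  refine ⟨by rw [h1]; exact h3, ?_⟩
  rw [h1, h2]
  have h9 : f c < α * (Θ x).2 + β * (Θ y).2 := by
    have e1 : α * (f (Θ x).1 - f c - ℓ c ((Θ x).1 - c)) ≥ 0 := mul_nonneg hα h4
    have e2 : β * (f (Θ y).1 - f c - ℓ c ((Θ y).1 - c)) ≥ 0 := mul_nonneg hβ h5
    have e3 : f c ≤ α * f (Θ x).1 + β * f (Θ y).1 := by
      have : f c = (α + β) * f c := by rw [hαβ, one_mul]
      nlinarith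
    rcases hα.lt_or_eq with h | h
    · have := mul_lt_mul_of_pos_left hx1 h
      have := mul_le_mul_of_nonneg_left hy1.le hβ
      linarith
    · have hβ1 : β = 1 := by linarith
      rw [← h, hβ1] at e3 ⊢
      linarith
  exact h9

lemma LGood.compact_set (hG : LGood μ D f ℓ) {a : V} (ha : a ∈ D) :
    ∃ T : ℝ, 0 < T ∧ IsCompact {x | x ∈ D ∧ f x - f a - ℓ a (x - a) ≤ T} := by
  obtain ⟨T, hT, C, hC, hCD, hsub⟩ := hG.cpt a ha
  refine ⟨T, hT, ?_⟩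
  have h1 : ContinuousOn (fun x => f x - f a - ℓ a (x - a)) C := by
    refine ((hG.cont.mono hCD).sub continuousOn_const).sub ?_
    exact ((ℓ a).continuous.comp (continuous_id.sub continuous_const)).continuousOn
  have h2 : {x | x ∈ D ∧ f x - f a - ℓ a (x - a) ≤ T} =
      C ∩ (fun x => f x - f a - ℓ a (x - a)) ⁻¹' (Iic T) := by
    ext x
    constructor
    · intro hx
      exact ⟨hsub hx, hx.2⟩
    · rintro ⟨h1, h2⟩
      exact ⟨hCD h1, h2⟩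
  rw [h2]
  exact hC.of_isClosed_subset (h1.preimage_isClosed_of_isClosed hC.isClosed isClosed_Iic)
    inter_subset_left

lemma LGood.compact_cap (hG : LGood μ D f ℓ) {a : E n} (ha : a ∈ gM Θ D f) :
    ∃ T : ℝ, 0 < T ∧ IsCompact (gM Θ D f ∩ {x | ⟪gN Θ (ℓ (Θ a).1), x - a⟫ ≤ T}) ∧
      IsCompact {v | v ∈ D ∧ f v - f (Θ a).1 - ℓ (Θ a).1 (v - (Θ a).1) ≤ T} := by
  obtain ⟨T, hT, hC⟩ := hG.compact_set ha.1
  refine ⟨T, hT, ?_, hC⟩
  have h1 : ContinuousOn (fun v => Θ.symm (v, f v))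
      {v | v ∈ D ∧ f v - f (Θ a).1 - ℓ (Θ a).1 (v - (Θ a).1) ≤ T} :=
    Θ.symm.continuous.comp_continuousOn (continuousOn_id.prodMk (hG.cont.mono fun v hv => hv.1))
  have h2 : gM Θ D f ∩ {x | ⟪gN Θ (ℓ (Θ a).1), x - a⟫ ≤ T} = (fun v => Θ.symm (v, f v)) ''
      {v | v ∈ D ∧ f v - f (Θ a).1 - ℓ (Θ a).1 (v - (Θ a).1) ≤ T} := by
    ext x
    constructor
    · rintro ⟨hx, hx1⟩
      have hx1 : ⟪gN Θ (ℓ (Θ a).1), x - a⟫ ≤ T := hx1
      rw [inner_gN_M ha hx] at hx1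
      refine ⟨(Θ x).1, ⟨hx.1, hx1⟩, ?_⟩
      simp only
      rw [← hx.2]
      simp
    · rintro ⟨v, hv, rfl⟩
      have hm : Θ.symm (v, f v) ∈ gM Θ D f := by simp [gM, hv.1]
      refine ⟨hm, ?_⟩
      show ⟪gN Θ (ℓ (Θ a).1), Θ.symm (v, f v) - a⟫ ≤ T
      rw [inner_gN_M ha hm, ContinuousLinearEquiv.apply_symm_apply]
      exact hv.2
  rw [h2]
  exact hC.image_of_continuousOn h1

lemma LGood.shrink (hG : LGood μ D f ℓ) {a : E n} (ha : a ∈ gM Θ D f) {r : ℝ} (hr : 0 < r) :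
    ∃ ε > 0, ∀ t, 0 < t → t < ε →
      gM Θ D f ∩ hyperplane a (gnu Θ (ℓ (Θ a).1)) t ⊆ Metric.ball a r := by
  have hN := norm_gN_pos Θ (ℓ (Θ a).1)
  obtain ⟨T, hT, hcap, -⟩ := hG.compact_cap ha
  have hcomp : IsCompact ((gM Θ D f ∩ {x | ⟪gN Θ (ℓ (Θ a).1), x - a⟫ ≤ T}) \ Metric.ball a r) :=
    hcap.diff Metric.isOpen_ball
  rcases ((gM Θ D f ∩ {x | ⟪gN Θ (ℓ (Θ a).1), x - a⟫ ≤ T}) \
    Metric.ball a r).eq_empty_or_nonempty with hem | hne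
  · refine ⟨T / ‖gN Θ (ℓ (Θ a).1)‖, by positivity, fun t ht ht1 x hx => ?_⟩
    by_contra hcon
    have : x ∈ ((gM Θ D f ∩ {x | ⟪gN Θ (ℓ (Θ a).1), x - a⟫ ≤ T}) \ Metric.ball a r) := by
      refine ⟨⟨hx.1, ?_⟩, hcon⟩
      have h1 := mem_hyperplane_gnu.mp hx.2
      rw [lt_div_iff₀ hN] at ht1
      show ⟪gN Θ (ℓ (Θ a).1), x - a⟫ ≤ T
      rw [h1]
      linarith
    rw [hem] at this
    exact this
  · obtain ⟨y, hy, hmin⟩ := hcomp.exists_isMinOn hne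
      (f := fun x => ⟪gN Θ (ℓ (Θ a).1), x - a⟫) (by fun_prop)
    have hyM : y ∈ gM Θ D f := hy.1.1
    have hya : y ≠ a := by
      rintro rfl
      exact hy.2 (Metric.mem_ball_self hr)
    have hpos : 0 < ⟪gN Θ (ℓ (Θ a).1), y - a⟫ := hG.inner_pos ha hyM hya
    refine ⟨min T ⟪gN Θ (ℓ (Θ a).1), y - a⟫ / ‖gN Θ (ℓ (Θ a).1)‖, by positivity,
      fun t ht ht1 x hx => ?_⟩
    by_contra hcon
    have h1 := mem_hyperplane_gnu.mp hx.2
    rw [lt_div_iff₀ hN] at ht1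
    have h2 : ⟪gN Θ (ℓ (Θ a).1), x - a⟫ < T := by
      rw [h1]
      have := min_le_left T ⟪gN Θ (ℓ (Θ a).1), y - a⟫
      linarith
    have h3 : ⟪gN Θ (ℓ (Θ a).1), x - a⟫ < ⟪gN Θ (ℓ (Θ a).1), y - a⟫ := by
      nth_rewrite 1 [h1]
      have := min_le_right T ⟪gN Θ (ℓ (Θ a).1), y - a⟫
      linarith
    have h4 := hmin (show x ∈ ((gM Θ D f ∩ {x | ⟪gN Θ (ℓ (Θ a).1), x - a⟫ ≤ T}) \
      Metric.ball a r) from ⟨⟨hx.1, h2.le⟩, hcon⟩)
    simp only [mem_ofPred_eq] at h4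
    linarith

lemma LGood.isDomain (hG : LGood μ D f ℓ) {a : E n} (ha : a ∈ gM Θ D f) {t T : ℝ} (ht : 0 < t)
    (hT : ‖gN Θ (ℓ (Θ a).1)‖ * t ≤ T)
    (hC : IsCompact {v | v ∈ D ∧ f v - f (Θ a).1 - ℓ (Θ a).1 (v - (Θ a).1) ≤ T}) :
    IsDomainBoundedBy (hyperplane a (gnu Θ (ℓ (Θ a).1)) t)
      (gM Θ D f ∩ hyperplane a (gnu Θ (ℓ (Θ a).1)) t)
      (gK Θ D f ∩ hyperplane a (gnu Θ (ℓ (Θ a).1)) t) := by
  have hN := norm_gN_pos Θ (ℓ (Θ a).1)
  set H := hyperplane a (gnu Θ (ℓ (Θ a).1)) t with hH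
  have hcv : Convex ℝ (gK Θ D f ∩ H) := hG.convex_K.inter (convex_hyperplane' a _ t)
  set y := a + (‖gN Θ (ℓ (Θ a).1)‖ * t) • gE Θ with hy
  have hyK : y ∈ gK Θ D f := by
    refine ⟨?_, ?_⟩
    · rw [hy, fst_add_gE]; exact ha.1
    · rw [hy, fst_add_gE, snd_add_gE, ha.2]
      have : 0 < ‖gN Θ (ℓ (Θ a).1)‖ * t := by positivity
      linarith
  have hyH : y ∈ H := by
    rw [hH, mem_hyperplane_gnu, hy, add_sub_cancel_left, real_inner_smul_right, inner_gN_gE,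
      mul_one]
  have hsec : gK Θ D f ∩ H = gK Θ D f ∩
      {x | ⟪gN Θ (ℓ (Θ a).1), x - a⟫ = ‖gN Θ (ℓ (Θ a).1)‖ * t} := by
    congr 1
    ext x
    exact mem_hyperplane_gnu
  have hproj : ∀ x ∈ gK Θ D f ∩ H, (Θ x).1 ∈
      {v | v ∈ D ∧ f v - f (Θ a).1 - ℓ (Θ a).1 (v - (Θ a).1) ≤ T} := by
    intro x hx
    have h1 : ⟪gN Θ (ℓ (Θ a).1), x - a⟫ = ‖gN Θ (ℓ (Θ a).1)‖ * t := mem_hyperplane_gnu.mp hx.2
    rw [inner_gN_sub ha] at h1
    refine ⟨hx.1.1, ?_⟩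
    have := hx.1.2
    linarith
  refine ⟨⟨gK Θ D f, hG.isOpen_K, rfl⟩, ⟨⟨y, hyK, hyH⟩, hcv.isPreconnected⟩, ?_, ?_⟩
  · rw [hsec, section_eq ha]
    have h1 : Continuous (fun v => Θ.symm (0, f (Θ a).1 + ‖gN Θ (ℓ (Θ a).1)‖ * t -
      ℓ (Θ a).1 (Θ a).1) + gL Θ (ℓ (Θ a).1) v) := by fun_prop
    exact (hC.image h1).isBounded.subset (image_mono fun v hv => ⟨hv.1, hv.2.le.trans hT⟩)
  · ext x
    constructor
    · rintro ⟨hx1, hx2⟩
      have hxH : x ∈ H :=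
        (isClosed_hyperplane' a _ t).closure_subset_iff.mpr inter_subset_right hx1
      rw [mem_closure_iff_seq_limit] at hx1
      obtain ⟨u, hu, hlim⟩ := hx1
      have h1 : Filter.Tendsto (fun i => (Θ (u i)).1) Filter.atTop (𝓝 (Θ x).1) :=
        ((by fun_prop : Continuous fun x : E n => (Θ x).1).tendsto x).comp hlim
      have h2 : Filter.Tendsto (fun i => (Θ (u i)).2) Filter.atTop (𝓝 (Θ x).2) :=
        ((by fun_prop : Continuous fun x : E n => (Θ x).2).tendsto x).comp hlim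
      have h3 := hC.isClosed.mem_of_tendsto h1 (Filter.Eventually.of_forall fun i =>
        hproj (u i) (hu i))
      have h4 : Filter.Tendsto (fun i => f (Θ (u i)).1) Filter.atTop (𝓝 (f (Θ x).1)) :=
        (hG.cont.continuousAt (hG.isOpen.mem_nhds h3.1)).tendsto.comp h1
      have h5 : f (Θ x).1 ≤ (Θ x).2 := le_of_tendsto_of_tendsto' h4 h2 fun i => (hu i).1.2.le
      refine ⟨⟨h3.1, ?_⟩, hxH⟩
      by_contra hne
      exact hx2 ⟨⟨h3.1, lt_of_le_of_ne h5 (Ne.symm hne)⟩, hxH⟩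
    · rintro ⟨hxM, hxH⟩
      refine ⟨?_, fun hx => ?_⟩
      · have hseg : openSegment ℝ y x ⊆ gK Θ D f ∩ H := by
          intro w hw
          refine ⟨?_, ?_⟩
          · have := hG.convex_K.openSegment_interior_closure_subset_interior
              (by rw [hG.isOpen_K.interior_eq]; exact hyK) (M_subset_closure_K hxM) hw
            rwa [hG.isOpen_K.interior_eq] at this
          · exact (convex_hyperplane' a _ t).openSegment_subset hyH hxH hw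
        have := closure_mono hseg
        rw [closure_openSegment] at this
        exact this (right_mem_segment ℝ y x)
      · have h1 := hx.1.2
        rw [hxM.2] at h1
        exact lt_irrefl _ h1

theorem LGood.smooth_convex (hG : LGood μ D f ℓ) (Θ : E n ≃L[ℝ] V × ℝ) :
    IsSmoothStrictlyConvexHypersurface (gM Θ D f) :=
  ⟨hG.isConnected, fun _ ha => ⟨_, hG.isInwardNormal ha⟩⟩

theorem LGood.lpi [FiniteDimensional ℝ V] [BorelSpace V] [μ.IsAddHaarMeasure]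
    (hG : LGood μ D f ℓ) (Θ : E n ≃L[ℝ] V × ℝ) : LocallyPolynomiallyIntegrable (gM Θ D f) := by
  intro a ha
  have hd : Module.finrank ℝ V = n - 1 := by
    have h1 := Θ.toLinearEquiv.finrank_eq
    rw [Module.finrank_prod] at h1
    simp at h1
    omega
  obtain ⟨c, hc, hL⟩ := measure_linear μ hd (gL Θ (ℓ (Θ a).1) : V →ₗ[ℝ] E n)
  obtain ⟨P, T₀, hT₀, hP⟩ := hG.vol (Θ a).1 ha.1
  obtain ⟨T, hT, -, hC⟩ := hG.compact_cap ha
  have hN := norm_gN_pos Θ (ℓ (Θ a).1)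
  refine ⟨_, hG.isInwardNormal ha,
    Polynomial.C c * P.comp (Polynomial.C ‖gN Θ (ℓ (Θ a).1)‖ * Polynomial.X), 1, one_pos,
    fun r hr _ => ?_⟩
  obtain ⟨ε, hε, hsh⟩ := hG.shrink ha hr
  refine ⟨min ε (min T₀ T / ‖gN Θ (ℓ (Θ a).1)‖), by positivity, fun t ht htε =>
    ⟨gK Θ D f ∩ hyperplane a (gnu Θ (ℓ (Θ a).1)) t, ?_, ?_⟩⟩
  · have h1 : gM Θ D f ∩ Metric.ball a r ∩ hyperplane a (gnu Θ (ℓ (Θ a).1)) t =
        gM Θ D f ∩ hyperplane a (gnu Θ (ℓ (Θ a).1)) t := by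
      ext x
      constructor
      · rintro ⟨⟨h1, h2⟩, h3⟩
        exact ⟨h1, h3⟩
      · rintro ⟨h1, h3⟩
        exact ⟨⟨h1, hsh t ht (htε.trans_le (min_le_left _ _)) ⟨h1, h3⟩⟩, h3⟩
    rw [h1]
    refine hG.isDomain ha ht ?_ hC
    have h2 := htε.trans_le (min_le_right _ _)
    rw [lt_div_iff₀ hN] at h2
    have := min_le_right T₀ T
    linarith
  · have h1 : gK Θ D f ∩ hyperplane a (gnu Θ (ℓ (Θ a).1)) t = gK Θ D f ∩
        {x | ⟪gN Θ (ℓ (Θ a).1), x - a⟫ = ‖gN Θ (ℓ (Θ a).1)‖ * t} := by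
      congr 1
      ext x
      exact mem_hyperplane_gnu
    rw [h1, section_eq ha]
    set τ := ‖gN Θ (ℓ (Θ a).1)‖ * t with hτ
    have hτ0 : 0 < τ := by positivity
    have hτ1 : τ < T₀ := by
      have h2 := htε.trans_le (min_le_right _ _)
      rw [lt_div_iff₀ hN] at h2
      have := min_le_left T₀ T
      linarith
    have h2 : (fun v => Θ.symm (0, f (Θ a).1 + τ - ℓ (Θ a).1 (Θ a).1) +
        gL Θ (ℓ (Θ a).1) v) '' {v | v ∈ D ∧ f v - f (Θ a).1 - ℓ (Θ a).1 (v - (Θ a).1) < τ} =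
        (fun x => Θ.symm (0, f (Θ a).1 + τ - ℓ (Θ a).1 (Θ a).1) + x) ''
          ((gL Θ (ℓ (Θ a).1) : V →ₗ[ℝ] E n) ''
            {v | v ∈ D ∧ f v - f (Θ a).1 - ℓ (Θ a).1 (v - (Θ a).1) < τ}) := by
      rw [image_image]
      rfl
    rw [h2, (isometry_add_left _).euclideanHausdorffMeasure_image, hL _ (hG.meas _ ha.1 τ),
      hP τ hτ0 hτ1, ← ENNReal.ofReal_mul hc]
    congr 1
    simp [hτ]

end

end Pool.Agent.Y106.LPI
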