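import Pool.Agent.Y106.LPI.Fam

/-!
# The volumes of the caps of the family are polynomials
-/

open MeasureTheory Set Topology
open scoped ENNReal NNReal RealInnerProductSpace ContDiff MeasureTheory

namespace Pool.Agent.Y106.LPI

open Pool.Agent.Results.MP_bfe3ea_gt.VinbergCone (inv inv_pos inv_mul_neg inv_add_neg inv_sub_neg
  inv_sub_div range_inv injOn_inv hasDerivAt_inv lintegral_fold lintegral_sq lintegral_scale)

/-! ### The substitution `u = w - b / w` -/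

/-- Cauchy-Schloemilch substitution with a general weight. -/
lemma cs' {b : ℝ} (hb : 0 < b) (wt S : ℝ → ℝ) (hwt : ∀ w, 0 < w → 0 ≤ wt w) (hwm : Measurable wt)
    (hS : ∀ u, inv b u / Real.sqrt (u ^ 2 + 4 * b) * wt (inv b u) +
      inv b (-u) / Real.sqrt (u ^ 2 + 4 * b) * wt (inv b (-u)) = S u)
    (φ : ℝ → ℝ≥0∞) (hφ : Measurable φ) :
    ∫⁻ w in Ioi (0:ℝ), ENNReal.ofReal (wt w) * φ ((w - b / w) ^ 2) =
      ∫⁻ u in Ioi (0:ℝ), ENNReal.ofReal (S u) * φ (u ^ 2) := by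
  have hmeas : Measurable (inv b) := by
    unfold inv
    fun_prop
  conv_lhs => rw [← range_inv hb]
  rw [lintegral_image_eq_lintegral_abs_deriv_mul MeasurableSet.univ
    (fun x _ => (hasDerivAt_inv hb x).hasDerivWithinAt) (injOn_inv hb)]
  have key : ∀ u : ℝ, ENNReal.ofReal |inv b u / Real.sqrt (u ^ 2 + 4 * b)| *
      (ENNReal.ofReal (wt (inv b u)) * φ ((inv b u - b / inv b u) ^ 2)) =
      ENNReal.ofReal (inv b u / Real.sqrt (u ^ 2 + 4 * b) * wt (inv b u)) * φ (u ^ 2) := by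
    intro u
    have hp := inv_pos hb u
    have h0 : 0 < Real.sqrt (u ^ 2 + 4 * b) := Real.sqrt_pos.mpr (by positivity)
    rw [inv_sub_div hb, abs_of_nonneg (by positivity), ← mul_assoc,
      ← ENNReal.ofReal_mul (by positivity)]
  simp_rw [key]
  rw [setLIntegral_univ, lintegral_fold]
  · refine setLIntegral_congr_fun (measurableSet_Ioi (a := (0:ℝ))) fun u _ => ?_
    have hp := inv_pos hb u
    have hp' := inv_pos hb (-u)
    have h0 : 0 < Real.sqrt (u ^ 2 + 4 * b) := Real.sqrt_pos.mpr (by positivity)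
    simp only [neg_sq]
    have h1 := hwt _ hp
    have h2 := hwt _ hp'
    rw [← add_mul, ← ENNReal.ofReal_add (by positivity) (by positivity), hS]
  · fun_prop

/-- sums of monomials `u ^ (2 i) * b ^ k` with nonnegative coefficients -/
inductive NN2 : (ℝ → ℝ → ℝ) → Prop
  | mono (c : ℝ) (hc : 0 ≤ c) (i k : ℕ) : NN2 (fun u b => c * u ^ (2 * i) * b ^ k)
  | add {f g : ℝ → ℝ → ℝ} (hf : NN2 f) (hg : NN2 g) : NN2 (fun u b => f u b + g u b)

lemma NN2.mulu {f : ℝ → ℝ → ℝ} (hf : NN2 f) : NN2 (fun u b => u ^ 2 * f u b) := by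
  induction hf with
  | mono c hc i k =>
    have : (fun u b : ℝ => u ^ 2 * (c * u ^ (2 * i) * b ^ k)) =
        fun u b => c * u ^ (2 * (i + 1)) * b ^ k := by
      funext u b; ring
    rw [this]
    exact NN2.mono c hc (i + 1) k
  | add hf hg ihf ihg =>
    have := NN2.add ihf ihg
    convert this using 3
    ring

lemma NN2.mulb {f : ℝ → ℝ → ℝ} (hf : NN2 f) : NN2 (fun u b => b * f u b) := by
  induction hf with
  | mono c hc i k =>
    have : (fun u b : ℝ => b * (c * u ^ (2 * i) * b ^ k)) =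
        fun u b => c * u ^ (2 * i) * b ^ (k + 1) := by
      funext u b; ring
    rw [this]
    exact NN2.mono c hc i (k + 1)
  | add hf hg ihf ihg =>
    have := NN2.add ihf ihg
    convert this using 3
    ring

lemma NN2.nonneg {f : ℝ → ℝ → ℝ} (hf : NN2 f) (u : ℝ) {b : ℝ} (hb : 0 ≤ b) : 0 ≤ f u b := by
  induction hf with
  | mono c hc i k =>
    have : 0 ≤ u ^ (2 * i) := by rw [pow_mul]; positivity
    positivity
  | add hf hg ihf ihg => exact add_nonneg ihf ihg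

lemma NN2.measurable {f : ℝ → ℝ → ℝ} (hf : NN2 f) :
    Measurable (fun p : ℝ × ℝ => f p.1 p.2) := by
  induction hf with
  | mono c hc i k => fun_prop
  | add hf hg ihf ihg => exact ihf.add ihg

lemma NN2.one : NN2 (fun _ _ => 1) := by
  have : (fun _ _ : ℝ => (1:ℝ)) = fun u b => 1 * u ^ (2 * 0) * b ^ 0 := by
    funext u b; simp
  rw [this]
  exact NN2.mono 1 zero_le_one 0 0

/-- power sums in terms of difference and product -/
lemma exists_SR (m : ℕ) : ∃ S R : ℝ → ℝ → ℝ, NN2 S ∧ NN2 R ∧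
    (∀ x y : ℝ, (x + y) * S (x - y) (x * y) = x ^ (2 * m + 1) + y ^ (2 * m + 1)) ∧
    (∀ x y : ℝ, (x + y) * ((x - y) * R (x - y) (x * y)) = x ^ (2 * m + 2) - y ^ (2 * m + 2)) := by
  induction m with
  | zero =>
    refine ⟨fun _ _ => 1, fun _ _ => 1, NN2.one, NN2.one, fun x y => by ring, fun x y => by ring⟩
  | succ m ih =>
    obtain ⟨S, R, hS, hR, h1, h2⟩ := ih
    have h3 : ∀ x y : ℝ, (x + y) * ((x - y) ^ 2 * R (x - y) (x * y) + x * y * S (x - y) (x * y)) =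
        x ^ (2 * (m + 1) + 1) + y ^ (2 * (m + 1) + 1) := by
      intro x y
      have e1 := h1 x y
      have e2 := h2 x y
      linear_combination (x - y) * e2 + x * y * e1
    refine ⟨fun u b => u ^ 2 * R u b + b * S u b,
      fun u b => (u ^ 2 * R u b + b * S u b) + b * R u b,
      hR.mulu.add hS.mulb, (hR.mulu.add hS.mulb).add hR.mulb, h3, fun x y => ?_⟩
    have e1 := h3 x y
    have e2 := h2 x y
    linear_combination (x - y) * e1 + x * y * e2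

/-- the weights produced by the substitution -/
lemma exists_W (j : ℕ) : ∃ W : ℝ → ℝ → ℝ, NN2 W ∧
    ∀ x y : ℝ, (x + y) * W (x - y) (x * y) = x ^ 3 * y ^ (2 * j) + y ^ 3 * x ^ (2 * j) := by
  match j with
  | 0 => exact ⟨fun u b => u ^ 2 * 1 + b * 1, NN2.one.mulu.add NN2.one.mulb, fun x y => by ring⟩
  | 1 => exact ⟨fun u b => b * (b * 1), NN2.one.mulb.mulb, fun x y => by ring⟩
  | j + 2 =>
    obtain ⟨S, -, hS, -, h1, -⟩ := exists_SR j
    refine ⟨fun u b => b * (b * (b * S u b)), hS.mulb.mulb.mulb, fun x y => ?_⟩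
    have e1 := h1 x y
    linear_combination (x * y) ^ 3 * e1

/-! ### The two-dimensional integral -/

lemma lintegral_scale_real {c : ℝ} (hc : 0 < c) (g : ℝ → ℝ≥0∞) (hg : Measurable g) :
    ∫⁻ u, g u = ENNReal.ofReal c * ∫⁻ u, g (c * u) := by
  have h1 := Real.map_volume_mul_left hc.ne'
  have h2 : ∫⁻ u, g (c * u) = ∫⁻ u, g u ∂(Measure.map (c * ·) volume) := by
    rw [lintegral_map hg (by fun_prop)]
  rw [h2, h1, lintegral_smul_measure, smul_eq_mul, ← mul_assoc, ← ENNReal.ofReal_mul hc.le,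
    abs_of_pos (by positivity), mul_inv_cancel₀ hc.ne', ENNReal.ofReal_one, one_mul]

lemma inner_q {t γ : ℝ} (ht : 0 < t) (ψ : ℝ → ℝ≥0∞) (hψ : Measurable ψ) :
    ∫⁻ q, ψ ((q - γ * t) ^ 2 / t) = ENNReal.ofReal (Real.sqrt t) * ∫⁻ v, ψ (v ^ 2) := by
  have hs : 0 < Real.sqrt t := Real.sqrt_pos.mpr ht
  have hs2 : Real.sqrt t ^ 2 = t := Real.sq_sqrt ht.le
  rw [lintegral_sub_right_eq_self (fun q => ψ (q ^ 2 / t)) (γ * t),
    lintegral_scale_real hs (fun q => ψ (q ^ 2 / t)) (by fun_prop)]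
  congr 1
  refine lintegral_congr fun v => ?_
  congr 1
  rw [mul_pow, hs2]
  field_simp

lemma two_dim (j : ℕ) : ∃ W : ℝ → ℝ → ℝ, NN2 W ∧ ∀ (Y m l γ : ℝ), 0 < Y → 0 < m → 0 < l →
    ∀ ψ : ℝ → ℝ≥0∞, Measurable ψ →
    ∫⁻ p in {p : ℝ × ℝ | 0 < p.1}, ENNReal.ofReal ((Y ^ 2 / p.1) ^ j) *
      ψ (l * (Y - m * p.1) ^ 2 / p.1 + (p.2 - γ * p.1) ^ 2 / p.1) =
    ENNReal.ofReal (2 * m ^ (2 * j)) * ∫⁻ u in Ioi (0:ℝ), ENNReal.ofReal (W u (Y / m)) *
      ∫⁻ v, ψ (l * m ^ 2 * u ^ 2 + v ^ 2) := by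
  obtain ⟨W, hW, hxy⟩ := exists_W j
  refine ⟨W, hW, fun Y m l γ hY hm hl ψ hψ => ?_⟩
  set b := Y / m with hb
  have hb0 : 0 < b := by positivity
  have h1 : {p : ℝ × ℝ | 0 < p.1} = Ioi 0 ×ˢ univ := by
    ext p; simp
  rw [h1, Measure.volume_eq_prod, ← Measure.prod_restrict, Measure.restrict_univ,
    lintegral_prod _ (by fun_prop)]
  have h2 : ∀ t ∈ Ioi (0:ℝ), ∫⁻ q, ENNReal.ofReal ((Y ^ 2 / t) ^ j) *
      ψ (l * (Y - m * t) ^ 2 / t + (q - γ * t) ^ 2 / t) =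
      ENNReal.ofReal ((Y ^ 2 / t) ^ j) * (ENNReal.ofReal (Real.sqrt t) *
        ∫⁻ v, ψ (l * (Y - m * t) ^ 2 / t + v ^ 2)) := by
    intro t ht
    rw [lintegral_const_mul' _ _ ENNReal.ofReal_ne_top]
    congr 1
    exact inner_q ht (fun s => ψ (l * (Y - m * t) ^ 2 / t + s)) (by fun_prop)
  rw [setLIntegral_congr_fun measurableSet_Ioi h2, lintegral_sq]
  have hΨ : Measurable fun s : ℝ => ∫⁻ v, ψ (l * m ^ 2 * s + v ^ 2) := by
    apply Measurable.lintegral_prod_right'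
      (f := fun p : ℝ × ℝ => ψ (l * m ^ 2 * p.1 + p.2 ^ 2))
    fun_prop
  have h3 : ∀ w ∈ Ioi (0:ℝ), ENNReal.ofReal (2 * w) * (ENNReal.ofReal ((Y ^ 2 / w ^ 2) ^ j) *
      (ENNReal.ofReal (Real.sqrt (w ^ 2)) *
        ∫⁻ v, ψ (l * (Y - m * w ^ 2) ^ 2 / w ^ 2 + v ^ 2))) =
      ENNReal.ofReal (2 * m ^ (2 * j)) * (ENNReal.ofReal (w ^ 2 * (b ^ 2 / w ^ 2) ^ j) *
        (fun s => ∫⁻ v, ψ (l * m ^ 2 * s + v ^ 2)) ((w - b / w) ^ 2)) := by
    intro w hw
    have hw : 0 < w := hw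
    simp only
    have e1 : l * (Y - m * w ^ 2) ^ 2 / w ^ 2 = l * m ^ 2 * (w - b / w) ^ 2 := by
      rw [hb]; field_simp; ring
    rw [e1, Real.sqrt_sq hw.le, ← mul_assoc, ← mul_assoc, ← mul_assoc,
      ← ENNReal.ofReal_mul (by positivity), ← ENNReal.ofReal_mul (by positivity),
      ← ENNReal.ofReal_mul (by positivity)]
    congr 2
    have e2 : Y = m * b := by rw [hb]; field_simp
    rw [e2, mul_pow, mul_div_assoc, mul_pow, ← pow_mul]
    ring
  rw [setLIntegral_congr_fun measurableSet_Ioi h3, lintegral_const_mul' _ _ ENNReal.ofReal_ne_top]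
  congr 1
  refine cs' hb0 (fun w => w ^ 2 * (b ^ 2 / w ^ 2) ^ j) (fun u => W u b) ?_ (by fun_prop) ?_ _ hΨ
  · intro w hw
    positivity
  · intro u
    have hp := inv_pos hb0 u
    have hp' := inv_pos hb0 (-u)
    have m1 := inv_mul_neg hb0 u
    have m2 := inv_add_neg b u
    have m3 := inv_sub_neg b u
    have h0 : 0 < Real.sqrt (u ^ 2 + 4 * b) := Real.sqrt_pos.mpr (by positivity)
    rw [← m2] at h0 ⊢
    have h5 := hxy (inv b u) (inv b (-u))
    rw [m3, m1] at h5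
    have e0 : b ^ 2 = (inv b u * inv b (-u)) ^ 2 := by rw [m1]
    have e1 : b ^ 2 / inv b u ^ 2 = inv b (-u) ^ 2 := by
      rw [div_eq_iff (by positivity), e0]; ring
    have e2 : b ^ 2 / inv b (-u) ^ 2 = inv b u ^ 2 := by
      rw [div_eq_iff (by positivity), e0]; ring
    rw [e1, e2, ← pow_mul, ← pow_mul]
    field_simp
    rw [h5]

/-- the monomial functional -/
noncomputable def Im (m : ℕ) (φ : ℝ → ℝ≥0∞) : ℝ≥0∞ :=
  ∫⁻ τ in Ioi (0:ℝ), ENNReal.ofReal (τ ^ m) * φ τ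

/-- polar coordinates -/
lemma polar (i : ℕ) {κ : ℝ} (hκ : 0 < κ) : ∃ C : ℝ≥0, ∀ g : ℝ → ℝ≥0∞, Measurable g →
    ∫⁻ u in Ioi (0:ℝ), ENNReal.ofReal (u ^ (2 * i)) * ∫⁻ v, g (κ * u ^ 2 + v ^ 2) =
      C * Im i g := by
  set A : ℝ → ℝ≥0∞ := (Ioi (0:ℝ)).indicator (fun u => ENNReal.ofReal (u ^ (2 * i))) with hA
  have hAm : Measurable A := by
    rw [hA]
    exact Measurable.indicator (by fun_prop) measurableSet_Ioi
  set C0 : ℝ≥0∞ := ∫⁻ θ in Ioo (-Real.pi) Real.pi, A (Real.cos θ) with hC0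
  have hC0t : C0 ≠ ⊤ := by
    have h1 : ∀ θ : ℝ, A (Real.cos θ) ≤ 1 := by
      intro θ
      rw [hA]
      by_cases h : Real.cos θ ∈ Ioi (0:ℝ)
      · rw [indicator_of_mem h]
        apply ENNReal.ofReal_le_one.mpr
        exact pow_le_one₀ (le_of_lt h) (Real.cos_le_one θ)
      · rw [indicator_of_notMem h]
        exact zero_le
    refine ne_top_of_le_ne_top ?_ (lintegral_mono h1)
    simp
  set l := 1 / Real.sqrt κ with hl
  have hsq : 0 < Real.sqrt κ := Real.sqrt_pos.mpr hκ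
  have hl0 : 0 < l := by positivity
  have hl2 : κ * l ^ 2 = 1 := by
    rw [hl, div_pow, Real.sq_sqrt hκ.le]; field_simp
  refine ⟨(ENNReal.ofReal (l * l ^ (2 * i) / 2) * C0).toNNReal, fun g hg => ?_⟩
  rw [ENNReal.coe_toNNReal (ENNReal.mul_ne_top ENNReal.ofReal_ne_top hC0t), lintegral_scale hl0]
  have h1 : ∀ u : ℝ, ENNReal.ofReal ((l * u) ^ (2 * i)) * ∫⁻ v, g (κ * (l * u) ^ 2 + v ^ 2) =
      ENNReal.ofReal (l ^ (2 * i)) * (ENNReal.ofReal (u ^ (2 * i)) *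
        ∫⁻ v, g (u ^ 2 + v ^ 2)) := by
    intro u
    have e1 : κ * (l * u) ^ 2 = u ^ 2 := by
      rw [mul_pow, ← mul_assoc, hl2, one_mul]
    rw [e1, mul_pow, ENNReal.ofReal_mul (by positivity), mul_assoc]
  simp_rw [h1]
  rw [lintegral_const_mul' _ _ ENNReal.ofReal_ne_top]
  have h2 : ∫⁻ u in Ioi (0:ℝ), ENNReal.ofReal (u ^ (2 * i)) * ∫⁻ v, g (u ^ 2 + v ^ 2) =
      ∫⁻ p : ℝ × ℝ, A p.1 * g (p.1 ^ 2 + p.2 ^ 2) := by
    rw [Measure.volume_eq_prod, lintegral_prod _ (by fun_prop), ← lintegral_indicator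
      measurableSet_Ioi]
    refine lintegral_congr fun u => ?_
    simp only
    by_cases hu : u ∈ Ioi (0:ℝ)
    · rw [indicator_of_mem hu, hA]
      simp only [indicator_of_mem hu]
      rw [lintegral_const_mul' _ _ ENNReal.ofReal_ne_top]
    · rw [indicator_of_notMem hu, hA]
      simp only [indicator_of_notMem hu]
      simp
  rw [h2, ← lintegral_comp_polarCoord_symm]
  have h3 : ∀ p ∈ polarCoord.target, ENNReal.ofReal p.1 •
      (A (polarCoord.symm p).1 * g ((polarCoord.symm p).1 ^ 2 + (polarCoord.symm p).2 ^ 2)) =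
      (ENNReal.ofReal (p.1 * (p.1 ^ 2) ^ i) * g (p.1 ^ 2)) * A (Real.cos p.2) := by
    rintro ⟨ρ, θ⟩ ⟨hρ, -⟩
    have hρ : 0 < ρ := hρ
    have e0 : polarCoord.symm (ρ, θ) = (ρ * Real.cos θ, ρ * Real.sin θ) := rfl
    rw [e0]
    simp only [smul_eq_mul]
    have e1 : (ρ * Real.cos θ) ^ 2 + (ρ * Real.sin θ) ^ 2 = ρ ^ 2 := by
      have := Real.sin_sq_add_cos_sq θ
      linear_combination ρ ^ 2 * this
    have e2 : A (ρ * Real.cos θ) = ENNReal.ofReal ((ρ ^ 2) ^ i) * A (Real.cos θ) := by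
      rw [hA]
      by_cases h : Real.cos θ ∈ Ioi (0:ℝ)
      · have h' : ρ * Real.cos θ ∈ Ioi (0:ℝ) := mul_pos hρ h
        rw [indicator_of_mem h, indicator_of_mem h', ← ENNReal.ofReal_mul (by positivity), mul_pow,
          ← pow_mul]
      · have h' : ρ * Real.cos θ ∉ Ioi (0:ℝ) := fun h' => h (pos_of_mul_pos_right h' hρ.le)
        rw [indicator_of_notMem h, indicator_of_notMem h', mul_zero]
    rw [e1, e2, ENNReal.ofReal_mul hρ.le]
    ring
  have h4 : polarCoord.target = Ioi (0:ℝ) ×ˢ Ioo (-Real.pi) Real.pi := rfl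
  rw [setLIntegral_congr_fun polarCoord.open_target.measurableSet h3, h4, Measure.volume_eq_prod,
    ← Measure.prod_restrict]
  rw [lintegral_prod_mul (f := fun ρ => ENNReal.ofReal (ρ * (ρ ^ 2) ^ i) * g (ρ ^ 2))
    (g := fun θ => A (Real.cos θ)) (by fun_prop) (by fun_prop), ← hC0]
  have h5 : ∫⁻ ρ in Ioi (0:ℝ), ENNReal.ofReal (ρ * (ρ ^ 2) ^ i) * g (ρ ^ 2) =
      ENNReal.ofReal (1 / 2) * Im i g := by
    have e3 := lintegral_sq (fun z => ENNReal.ofReal (z ^ i) * g z)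
    unfold Im
    rw [e3, ← lintegral_const_mul' _ _ ENNReal.ofReal_ne_top]
    refine setLIntegral_congr_fun measurableSet_Ioi fun ρ hρ => ?_
    have hρ : 0 < ρ := hρ
    rw [← mul_assoc, ← mul_assoc, ← ENNReal.ofReal_mul (by positivity),
      ← ENNReal.ofReal_mul (by positivity)]
    congr 2
    ring
  rw [h5]
  have h6 : ENNReal.ofReal (l * l ^ (2 * i) / 2) =
      ENNReal.ofReal l * (ENNReal.ofReal (l ^ (2 * i)) * ENNReal.ofReal (1 / 2)) := by
    rw [← ENNReal.ofReal_mul (by positivity), ← ENNReal.ofReal_mul (by positivity)]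
    congr 1
    ring
  rw [h6]
  ring


/-! ### Translation operators -/

/-- monomials on the half line -/
noncomputable def Am (m : ℕ) : ℝ → ℝ≥0∞ := (Ioi (0:ℝ)).indicator (fun t => ENNReal.ofReal (t ^ m))

lemma measurable_Am (m : ℕ) : Measurable (Am m) := by
  unfold Am
  exact Measurable.indicator (by fun_prop) measurableSet_Ioi

lemma Am_of_pos (m : ℕ) {t : ℝ} (ht : 0 < t) : Am m t = ENNReal.ofReal (t ^ m) :=
  indicator_of_mem (mem_Ioi.mpr ht) _

lemma Am_of_nonpos (m : ℕ) {t : ℝ} (ht : t ≤ 0) : Am m t = 0 :=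
  indicator_of_notMem (by simpa using ht) _

lemma Am_ne_top (m : ℕ) (t : ℝ) : Am m t ≠ ⊤ := by
  rcases le_or_gt t 0 with h | h
  · rw [Am_of_nonpos m h]; exact ENNReal.zero_ne_top
  · rw [Am_of_pos m h]; exact ENNReal.ofReal_ne_top

lemma Am_mul {c : ℝ} (hc : 0 < c) (m : ℕ) (t : ℝ) :
    Am m (c * t) = ENNReal.ofReal (c ^ m) * Am m t := by
  rcases le_or_gt t 0 with h | h
  · rw [Am_of_nonpos m h, Am_of_nonpos m (mul_nonpos_of_nonneg_of_nonpos hc.le h), mul_zero]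
  · rw [Am_of_pos m h, Am_of_pos m (mul_pos hc h), ← ENNReal.ofReal_mul (by positivity), mul_pow]

lemma Am_le_one (m : ℕ) {t : ℝ} (ht : t ≤ 1) : Am m t ≤ 1 := by
  rcases le_or_gt t 0 with h | h
  · rw [Am_of_nonpos m h]; exact zero_le
  · rw [Am_of_pos m h]
    exact ENNReal.ofReal_le_one.mpr (pow_le_one₀ h.le ht)

lemma Im_eq (m : ℕ) (φ : ℝ → ℝ≥0∞) : Im m φ = ∫⁻ t, Am m t * φ t := by
  unfold Im
  rw [← lintegral_indicator measurableSet_Ioi]
  refine lintegral_congr fun t => ?_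
  rcases le_or_gt t 0 with h | h
  · rw [Am_of_nonpos m h, indicator_of_notMem (by simpa using h), zero_mul]
  · rw [Am_of_pos m h, indicator_of_mem (mem_Ioi.mpr h)]

lemma trans (i m : ℕ) : ∃ C : ℝ≥0, ∀ φ : ℝ → ℝ≥0∞, Measurable φ →
    Im i (fun ρ => Im m (fun τ => φ (ρ + 2 * τ))) = C * Im (i + m + 1) φ := by
  have m1 := measurable_Am m
  have m2 := measurable_Am i
  set C0 : ℝ≥0∞ := ∫⁻ v, Am m v * Am i (1 - 2 * v) with hC0
  have hC0t : C0 ≠ ⊤ := by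
    have h1 : ∀ v, Am m v * Am i (1 - 2 * v) ≤ (Icc (0:ℝ) 1).indicator (fun _ => 1) v := by
      intro v
      rcases le_or_gt v 0 with h | h
      · rw [Am_of_nonpos m h, zero_mul]; exact zero_le
      · rcases le_or_gt (1 - 2 * v) 0 with h' | h'
        · rw [Am_of_nonpos i h', mul_zero]; exact zero_le
        · rw [indicator_of_mem (show v ∈ Icc (0:ℝ) 1 from ⟨h.le, by linarith⟩)]
          exact mul_le_one' (Am_le_one m (by linarith)) (Am_le_one i (by linarith))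
    refine ne_top_of_le_ne_top ?_ (lintegral_mono h1)
    rw [lintegral_indicator measurableSet_Icc]
    simp
  have hK : ∀ σ, ∫⁻ τ, Am m τ * Am i (σ - 2 * τ) = C0 * Am (i + m + 1) σ := by
    intro σ
    rcases le_or_gt σ 0 with hσ | hσ
    · rw [Am_of_nonpos _ hσ, mul_zero]
      rw [lintegral_eq_zero_iff (by fun_prop)]
      filter_upwards with τ
      simp only [Pi.zero_apply]
      rcases le_or_gt τ 0 with h | h
      · rw [Am_of_nonpos m h, zero_mul]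
      · rw [Am_of_nonpos i (by linarith), mul_zero]
    · rw [lintegral_scale_real hσ _ (by fun_prop)]
      have : ∀ v, Am m (σ * v) * Am i (σ - 2 * (σ * v)) =
          ENNReal.ofReal (σ ^ m * σ ^ i) * (Am m v * Am i (1 - 2 * v)) := by
        intro v
        have e : σ - 2 * (σ * v) = σ * (1 - 2 * v) := by ring
        rw [e, Am_mul hσ, Am_mul hσ, ENNReal.ofReal_mul (by positivity)]
        ring
      simp_rw [this]
      rw [lintegral_const_mul' _ _ ENNReal.ofReal_ne_top, ← mul_assoc,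
        ← ENNReal.ofReal_mul hσ.le, ← hC0, Am_of_pos _ hσ, mul_comm C0]
      congr 2
      ring
  refine ⟨C0.toNNReal, fun φ hφ => ?_⟩
  rw [ENNReal.coe_toNNReal hC0t, Im_eq, Im_eq]
  have h1 : ∀ ρ, Am i ρ * Im m (fun τ => φ (ρ + 2 * τ)) =
      ∫⁻ τ, Am i ρ * (Am m τ * φ (ρ + 2 * τ)) := by
    intro ρ
    rw [Im_eq, lintegral_const_mul' _ _ (Am_ne_top i ρ)]
  simp_rw [h1]
  rw [lintegral_lintegral_swap (by fun_prop)]
  have h2 : ∀ τ, ∫⁻ ρ, Am i ρ * (Am m τ * φ (ρ + 2 * τ)) =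
      ∫⁻ σ, Am m τ * Am i (σ - 2 * τ) * φ σ := by
    intro τ
    rw [← lintegral_sub_right_eq_self (fun ρ => Am i ρ * (Am m τ * φ (ρ + 2 * τ))) (2 * τ)]
    refine lintegral_congr fun σ => ?_
    rw [sub_add_cancel]
    ring
  simp_rw [h2]
  rw [lintegral_lintegral_swap (by fun_prop)]
  have h3 : ∀ σ, ∫⁻ τ, Am m τ * Am i (σ - 2 * τ) * φ σ = C0 * (Am (i + m + 1) σ * φ σ) := by
    intro σ
    rw [lintegral_mul_const _ (by fun_prop), hK, mul_assoc]
  simp_rw [h3]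
  rw [lintegral_const_mul' _ _ hC0t]

/-! ### Functionals with polynomial density -/

/-- functionals given by a point mass at zero and a polynomial density with nonnegative
coefficients on the half line -/
def Nice (Φ : (ℝ → ℝ≥0∞) → ℝ≥0∞) : Prop :=
  ∃ (c0 : ℝ≥0) (c : ℕ →₀ ℝ≥0), ∀ φ : ℝ → ℝ≥0∞, Measurable φ →
    Φ φ = c0 * φ 0 + c.sum fun m a => (a : ℝ≥0∞) * Im m φ

lemma Nice.congr {Φ Ψ : (ℝ → ℝ≥0∞) → ℝ≥0∞} (h : Nice Φ)
    (e : ∀ φ, Measurable φ → Ψ φ = Φ φ) : Nice Ψ := by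
  obtain ⟨c0, c, h⟩ := h
  exact ⟨c0, c, fun φ hφ => (e φ hφ).trans (h φ hφ)⟩

lemma Nice.add {Φ Ψ : (ℝ → ℝ≥0∞) → ℝ≥0∞} (h : Nice Φ) (h' : Nice Ψ) :
    Nice (fun φ => Φ φ + Ψ φ) := by
  obtain ⟨c0, c, h⟩ := h
  obtain ⟨d0, d, h'⟩ := h'
  refine ⟨c0 + d0, c + d, fun φ hφ => ?_⟩
  rw [Finsupp.sum_add_index' (by simp) (by intros; push_cast; ring)]
  simp only
  rw [h φ hφ, h' φ hφ]
  push_cast
  ring

lemma Nice.const_mul {Φ : (ℝ → ℝ≥0∞) → ℝ≥0∞} (h : Nice Φ) (k : ℝ≥0) :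
    Nice (fun φ => k * Φ φ) := by
  obtain ⟨c0, c, h⟩ := h
  refine ⟨k * c0, k • c, fun φ hφ => ?_⟩
  rw [Finsupp.sum_smul_index' (by simp)]
  simp only
  rw [h φ hφ, mul_add, Finsupp.mul_sum]
  simp only [smul_eq_mul, ENNReal.coe_mul, mul_assoc]

lemma nice_eval : Nice (fun φ => φ 0) :=
  ⟨1, 0, fun φ _ => by simp⟩

lemma nice_zero : Nice (fun _ => 0) :=
  ⟨0, 0, fun φ _ => by simp⟩

lemma nice_Im (m : ℕ) : Nice (Im m) :=
  ⟨0, Finsupp.single m 1, fun φ _ => by simp⟩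

lemma nice_sum (s : Finset ℕ) (Φ : ℕ → (ℝ → ℝ≥0∞) → ℝ≥0∞) (h : ∀ m, Nice (Φ m)) :
    Nice (fun φ => ∑ m ∈ s, Φ m φ) := by
  induction s using Finset.induction_on with
  | empty => simpa using nice_zero
  | insert a s ha ih =>
    refine ((h a).add ih).congr fun φ _ => ?_
    rw [Finset.sum_insert ha]

lemma Nice.shift {Φ : (ℝ → ℝ≥0∞) → ℝ≥0∞} (hΦ : Nice Φ) (i : ℕ) :
    Nice (fun φ => ∫⁻ ρ in Ioi (0:ℝ), ENNReal.ofReal (ρ ^ i) * Φ (fun τ => φ (ρ + 2 * τ))) := by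
  obtain ⟨c0, c, h⟩ := hΦ
  choose C hC using fun m => trans i m
  have key : Nice (fun φ => c0 * Im i φ +
      ∑ m ∈ c.support, ((c m * C m : ℝ≥0) : ℝ≥0∞) * Im (i + m + 1) φ) :=
    ((nice_Im i).const_mul c0).add
      (nice_sum _ (fun m φ => ((c m * C m : ℝ≥0) : ℝ≥0∞) * Im (i + m + 1) φ)
        fun m => (nice_Im _).const_mul _)
  refine key.congr fun φ hφ => ?_
  have hmeas : ∀ m, Measurable fun ρ : ℝ => Im m (fun τ => φ (ρ + 2 * τ)) := by
    intro m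
    unfold Im
    apply Measurable.lintegral_prod_right'
      (f := fun p : ℝ × ℝ => ENNReal.ofReal (p.2 ^ m) * φ (p.1 + 2 * p.2))
    fun_prop
  have h1 : ∀ ρ : ℝ, ENNReal.ofReal (ρ ^ i) * Φ (fun τ => φ (ρ + 2 * τ)) =
      c0 * (ENNReal.ofReal (ρ ^ i) * φ ρ) + ∑ m ∈ c.support,
        (c m : ℝ≥0∞) * (ENNReal.ofReal (ρ ^ i) * Im m (fun τ => φ (ρ + 2 * τ))) := by
    intro ρ
    rw [h _ (by fun_prop), mul_add, Finsupp.sum, Finset.mul_sum]
    simp only [mul_zero, add_zero]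
    congr 1
    · ring
    · refine Finset.sum_congr rfl fun m _ => ?_
      ring
  simp_rw [h1]
  rw [lintegral_add_left (by fun_prop), lintegral_const_mul' _ _ ENNReal.coe_ne_top,
    lintegral_finsetSum _ (fun m _ => by have := hmeas m; fun_prop)]
  congr 1
  refine Finset.sum_congr rfl fun m _ => ?_
  rw [lintegral_const_mul' _ _ ENNReal.coe_ne_top, ENNReal.coe_mul, mul_assoc, ← hC m φ hφ]
  rfl

end Pool.Agent.Y106.LPI
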