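import Pool.Agent.Y106.LPI.LGraph
import Pool.Agent.Y106.LPI.Vol

/-!
# Sums of squares of iterated quadratic shears

`u_i = x_i - u_{i+1} ^ 2` and `f = ∑ u_i ^ 2`: all small caps of `f` are ellipsoids in the
coordinates `u`.
-/

open MeasureTheory Set Topology
open scoped ENNReal NNReal RealInnerProductSpace ContDiff MeasureTheory Pointwise

namespace Pool.Agent.Y106.LPI

/-- the parameter space -/
abbrev W (r : ℕ) : Type := Fin r → ℝ

/-- all coordinates but the first -/
noncomputable def tw {r : ℕ} : W (r + 1) →L[ℝ] W r :=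
  ContinuousLinearMap.pi fun i => ContinuousLinearMap.proj i.succ

lemma tw_apply {r : ℕ} (x : W (r + 1)) (i : Fin r) : tw x i = x i.succ := rfl

/-- the first sheared coordinate -/
noncomputable def hd : (r : ℕ) → W r → ℝ
  | 0, _ => 0
  | r + 1, x => x 0 - (hd r (tw x)) ^ 2

/-- the sum of squares, the first one with coefficient `c` -/
noncomputable def fq : (r : ℕ) → ℝ → W r → ℝ
  | 0, _, _ => 0
  | r + 1, c, x => c * (hd (r + 1) x) ^ 2 + fq r 1 (tw x)

/-- the slope -/
noncomputable def sq : (r : ℕ) → ℝ → W r → (W r →L[ℝ] ℝ)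
  | 0, _, _ => 0
  | r + 1, c, a => (2 * c * hd (r + 1) a) • (ContinuousLinearMap.proj (0 : Fin (r + 1))) +
      (sq r (1 - 2 * c * hd (r + 1) a) (tw a)).comp tw

/-- the excess over the tangent plane -/
noncomputable def Bq : (r : ℕ) → ℝ → W r → W r → ℝ
  | 0, _, _, _ => 0
  | r + 1, c, a, x => c * (hd (r + 1) x - hd (r + 1) a) ^ 2 +
      Bq r (1 - 2 * c * hd (r + 1) a) (tw a) (tw x)

lemma fq_coeff : ∀ (r : ℕ) (c : ℝ) (x : W r), fq r c x = fq r 1 x + (c - 1) * (hd r x) ^ 2 := by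
  intro r c x
  cases r with
  | zero => simp [fq, hd]
  | succ r =>
    rw [fq, fq]
    ring

lemma sq_succ {r : ℕ} (c : ℝ) (a w : W (r + 1)) : sq (r + 1) c a w =
    2 * c * hd (r + 1) a * w 0 + sq r (1 - 2 * c * hd (r + 1) a) (tw a) (tw w) := rfl

lemma fq_sub : ∀ (r : ℕ) (c : ℝ) (a x : W r), fq r c x - fq r c a - sq r c a (x - a) =
    Bq r c a x := by
  intro r
  induction r with
  | zero => intro c a x; simp [fq, sq, Bq]
  | succ r ih =>
    intro c a x
    have h1 := ih (1 - 2 * c * hd (r + 1) a) (tw a) (tw x)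
    rw [Bq, ← h1, sq_succ, map_sub, fq, fq, fq_coeff r (1 - 2 * c * hd (r + 1) a) (tw x),
      fq_coeff r (1 - 2 * c * hd (r + 1) a) (tw a)]
    have h2 : x 0 = hd (r + 1) x + (hd r (tw x)) ^ 2 := by rw [hd]; ring
    have h3 : a 0 = hd (r + 1) a + (hd r (tw a)) ^ 2 := by rw [hd]; ring
    rw [Pi.sub_apply, h2, h3]
    ring

/-- the domain, a small cube -/
def Dq (r : ℕ) : Set (W r) := {x | ∀ i, |x i| < 1 / 16}

lemma tw_mem {r : ℕ} {x : W (r + 1)} (hx : x ∈ Dq (r + 1)) : tw x ∈ Dq r := fun i => hx i.succ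

lemma hd_lt : ∀ (r : ℕ) (x : W r), x ∈ Dq r → |hd r x| < 1 / 8 := by
  intro r
  induction r with
  | zero => intro x _; simp [hd]
  | succ r ih =>
    intro x hx
    have h1 := abs_lt.mp (ih (tw x) (tw_mem hx))
    have h2 := abs_lt.mp (hx 0)
    rw [hd, abs_lt]
    constructor <;> nlinarith [sq_nonneg (hd r (tw x))]

lemma coeff_range {r : ℕ} {c : ℝ} {a : W (r + 1)} (hc : 0 < c) (hc' : c < 2)
    (ha : a ∈ Dq (r + 1)) : 0 < 1 - 2 * c * hd (r + 1) a ∧ 1 - 2 * c * hd (r + 1) a < 2 := by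
  have h := abs_lt.mp (hd_lt (r + 1) a ha)
  constructor <;> nlinarith

lemma Bq_nonneg : ∀ (r : ℕ) (c : ℝ) (a x : W r), 0 < c → c < 2 → a ∈ Dq r →
    0 ≤ Bq r c a x := by
  intro r
  induction r with
  | zero => intro c a x _ _ _; exact le_rfl
  | succ r ih =>
    intro c a x hc hc' ha
    obtain ⟨h1, h2⟩ := coeff_range hc hc' ha
    have := ih _ (tw a) (tw x) h1 h2 (tw_mem ha)
    rw [Bq]
    positivity

lemma close : ∀ (r : ℕ) (c : ℝ) (a : W r) (ε : ℝ), 0 < c → c < 2 → a ∈ Dq r → 0 < ε →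
    ∃ T > 0, ∀ x : W r, Bq r c a x ≤ T → dist x a ≤ ε := by
  intro r
  induction r with
  | zero =>
    intro c a ε _ _ _ hε
    exact ⟨1, one_pos, fun x _ => by rw [Subsingleton.elim x a, dist_self]; exact hε.le⟩
  | succ r ih =>
    intro c a ε hc hc' ha hε
    obtain ⟨h1, h2⟩ := coeff_range hc hc' ha
    have hcont : Continuous (hd r) := by
      clear * -
      induction r with
      | zero => exact continuous_const
      | succ r ih =>
        have : hd (r + 1) = fun x => x 0 - (hd r (tw x)) ^ 2 := rfl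
        rw [this]
        fun_prop
    have hcont2 : Continuous (fun y => (hd r y) ^ 2) := by fun_prop
    obtain ⟨δ, hδ, hδ'⟩ := Metric.continuous_iff.mp hcont2 (tw a) (ε / 2) (by positivity)
    obtain ⟨T, hT, hT'⟩ := ih _ (tw a) (min (δ / 2) ε) h1 h2 (tw_mem ha) (by positivity)
    refine ⟨min T (c * (ε / 2) ^ 2), by positivity, fun x hx => ?_⟩
    rw [Bq] at hx
    have e1 := Bq_nonneg r _ (tw a) (tw x) h1 h2 (tw_mem ha)
    have e2 : 0 ≤ c * (hd (r + 1) x - hd (r + 1) a) ^ 2 := by positivity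
    have e3 := min_le_left T (c * (ε / 2) ^ 2)
    have e4 := min_le_right T (c * (ε / 2) ^ 2)
    have e5 := hT' (tw x) (by linarith)
    have e6 : c * (hd (r + 1) x - hd (r + 1) a) ^ 2 ≤ c * (ε / 2) ^ 2 := by linarith
    have e7 := le_of_mul_le_mul_left e6 hc
    have e8 : |hd (r + 1) x - hd (r + 1) a| ≤ ε / 2 := abs_le_of_sq_le_sq e7 (by positivity)
    have e9 := hδ' (tw x) ((e5.trans (min_le_left _ _)).trans_lt (by linarith))
    rw [Real.dist_eq] at e9
    rw [dist_pi_le_iff hε.le]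
    intro i
    refine Fin.cases ?_ (fun i => ?_) i
    · rw [Real.dist_eq]
      have h3 : x 0 - a 0 = (hd (r + 1) x - hd (r + 1) a) +
          ((hd r (tw x)) ^ 2 - (hd r (tw a)) ^ 2) := by rw [hd, hd]; ring
      rw [h3]
      refine (abs_add_le _ _).trans ?_
      linarith
    · exact (dist_le_pi_dist (tw x) (tw a) i).trans (e5.trans (min_le_right _ _))

lemma eq_of_Bq {r : ℕ} {c : ℝ} {a x : W r} (hc : 0 < c) (hc' : c < 2) (ha : a ∈ Dq r)
    (h : Bq r c a x = 0) : x = a := by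
  by_contra hne
  have hd0 : 0 < dist x a := dist_pos.mpr hne
  obtain ⟨T, hT, hT'⟩ := close r c a (dist x a / 2) hc hc' ha (by positivity)
  have := hT' x (by rw [h]; exact hT.le)
  linarith

lemma isOpen_Dq (r : ℕ) : IsOpen (Dq r) := by
  have : Dq r = ⋂ i, {x : W r | |x i| < 1 / 16} := by
    ext x; simp [Dq]
  rw [this]
  exact isOpen_iInter_of_finite fun i => isOpen_lt (by fun_prop) continuous_const

lemma convex_Dq (r : ℕ) : Convex ℝ (Dq r) := by
  have : Dq r = Set.pi univ fun _ => Ioo (-(1 / 16) : ℝ) (1 / 16) := by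
    ext x
    simp [Dq, abs_lt]
  rw [this]
  exact convex_pi fun i _ => convex_Ioo _ _

lemma zero_mem_Dq (r : ℕ) : (0 : W r) ∈ Dq r := fun i => by simp

lemma contDiff_hd : ∀ r : ℕ, ContDiff ℝ ∞ (hd r) := by
  intro r
  induction r with
  | zero => exact contDiff_const
  | succ r ih =>
    have : hd (r + 1) = fun x => x 0 - (hd r (tw x)) ^ 2 := rfl
    rw [this]
    have h1 : ContDiff ℝ ∞ fun x : W (r + 1) => hd r (tw x) := ih.comp tw.contDiff
    fun_prop

lemma contDiff_fq : ∀ (r : ℕ) (c : ℝ), ContDiff ℝ ∞ (fq r c) := by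
  intro r
  induction r with
  | zero => intro c; exact contDiff_const
  | succ r ih =>
    intro c
    have : fq (r + 1) c = fun x => c * (hd (r + 1) x) ^ 2 + fq r 1 (tw x) := rfl
    rw [this]
    have h1 : ContDiff ℝ ∞ fun x : W (r + 1) => fq r 1 (tw x) := (ih 1).comp tw.contDiff
    have h2 := contDiff_hd (r + 1)
    fun_prop

lemma measurable_hd (r : ℕ) : Measurable (hd r) := (contDiff_hd r).continuous.measurable

lemma continuous_Bq (r : ℕ) (c : ℝ) (a : W r) : Continuous (Bq r c a) := by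
  have h1 : Bq r c a = fun x => fq r c x - fq r c a - sq r c a (x - a) := by
    funext x; rw [fq_sub]
  rw [h1]
  have := (contDiff_fq r c).continuous
  fun_prop

/-- the caps are ellipsoids in the sheared coordinates -/
lemma exists_coeff : ∀ (r : ℕ) (c : ℝ) (a : W r), 0 < c → c < 2 → a ∈ Dq r →
    ∃ C : W r, (∀ i, 0 < C i) ∧ ∀ φ : ℝ → ℝ≥0∞, Measurable φ →
      ∫⁻ x, φ (Bq r c a x) = ∫⁻ u : W r, φ (∑ i, C i * u i ^ 2) := by
  intro r
  induction r with
  | zero =>
    intro c a _ _ _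
    refine ⟨0, fun i => i.elim0, fun φ hφ => ?_⟩
    simp [Bq]
  | succ r ih =>
    intro c a hc hc' ha
    obtain ⟨h1, h2⟩ := coeff_range hc hc' ha
    obtain ⟨C, hC, hI⟩ := ih _ (tw a) h1 h2 (tw_mem ha)
    refine ⟨Fin.cons c C, fun i => ?_, fun φ hφ => ?_⟩
    · refine Fin.cases ?_ (fun i => ?_) i
      · simpa using hc
      · simpa using hC i
    set c' := 1 - 2 * c * hd (r + 1) a with hc'
    have hB : Measurable (Bq r c' (tw a)) := (continuous_Bq r c' (tw a)).measurable
    have hhd := measurable_hd r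
    have hmp := volume_preserving_piFinSuccAbove (fun _ : Fin (r + 1) => ℝ) 0
    let F : ℝ × W r → ℝ≥0∞ := fun z =>
      φ (c * (z.1 - (hd r z.2) ^ 2 - hd (r + 1) a) ^ 2 + Bq r c' (tw a) z.2)
    have hF : Measurable F := by
      have hB2 : Measurable fun p : ℝ × W r => Bq r c' (tw a) p.2 := hB.comp measurable_snd
      have hh2 : Measurable fun p : ℝ × W r => hd r p.2 := hhd.comp measurable_snd
      fun_prop
    have e1 : ∫⁻ x, φ (Bq (r + 1) c a x) = ∫⁻ z, F z := by
      rw [← hmp.lintegral_comp hF]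
      rfl
    let F' : ℝ × W r → ℝ≥0∞ := fun z => φ (c * z.1 ^ 2 + ∑ i, C i * z.2 i ^ 2)
    have hF' : Measurable F' := by fun_prop
    have e2 : ∫⁻ u : W (r + 1), φ (∑ i, (Fin.cons c C : W (r + 1)) i * u i ^ 2) =
        ∫⁻ z, F' z := by
      rw [← hmp.lintegral_comp hF']
      refine lintegral_congr fun u => ?_
      rw [Fin.sum_univ_succ]
      simp only [Fin.cons_zero, Fin.cons_succ]
      rfl
    rw [e1, e2, Measure.volume_eq_prod, lintegral_prod_symm' _ hF, lintegral_prod _ hF'.aemeasurable]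
    have e3 : ∀ y : W r, ∫⁻ s, F (s, y) = ∫⁻ s, φ (c * s ^ 2 + Bq r c' (tw a) y) := by
      intro y
      rw [← lintegral_sub_right_eq_self (fun s => φ (c * s ^ 2 + Bq r c' (tw a) y))
        ((hd r y) ^ 2 + hd (r + 1) a)]
      refine lintegral_congr fun s => ?_
      simp only [F]
      congr 3
      ring
    simp_rw [e3]
    rw [lintegral_lintegral_swap]
    · refine lintegral_congr fun s => ?_
      exact hI (fun τ => φ (c * s ^ 2 + τ)) (by fun_prop)
    · apply Measurable.aemeasurable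
      have hB2 : Measurable fun p : W r × ℝ => Bq r c' (tw a) p.1 := hB.comp measurable_fst
      unfold Function.uncurry
      fun_prop

lemma vol_quad (k : ℕ) {r : ℕ} (hr : r = 2 * k) (C : W r) (hC : ∀ i, 0 < C i) :
    ∃ K : ℝ, 0 ≤ K ∧ ∀ T : ℝ, 0 < T →
      volume {u : W r | ∑ i, C i * u i ^ 2 < T} = ENNReal.ofReal (K * T ^ k) := by
  have hfin : volume {u : W r | ∑ i, C i * u i ^ 2 < 1} ≠ ⊤ := by
    have h1 : {u : W r | ∑ i, C i * u i ^ 2 < 1} ⊆
        Set.pi univ fun i => Icc (-(1 / C i + 1)) (1 / C i + 1) := by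
      intro u hu i _
      have hu : ∑ i, C i * u i ^ 2 < 1 := hu
      have h2 : C i * u i ^ 2 ≤ ∑ i, C i * u i ^ 2 :=
        Finset.single_le_sum (f := fun i => C i * u i ^ 2)
          (fun j _ => mul_nonneg (hC j).le (sq_nonneg _)) (Finset.mem_univ i)
      have h3 : u i ^ 2 ≤ 1 / C i := by
        rw [le_div_iff₀ (hC i)]
        linarith
      have h4 : 0 < 1 / C i := one_div_pos.mpr (hC i)
      rw [mem_Icc, ← abs_le]
      apply abs_le_of_sq_le_sq _ (by positivity)
      nlinarith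
    exact ne_top_of_le_ne_top (isCompact_univ_pi fun i => isCompact_Icc).measure_ne_top
      (measure_mono h1)
  refine ⟨(volume {u : W r | ∑ i, C i * u i ^ 2 < 1}).toReal, ENNReal.toReal_nonneg,
    fun T hT => ?_⟩
  have hs : 0 < Real.sqrt T := Real.sqrt_pos.mpr hT
  have hs2 : Real.sqrt T ^ 2 = T := Real.sq_sqrt hT.le
  have h1 : {u : W r | ∑ i, C i * u i ^ 2 < T} =
      Real.sqrt T • {u : W r | ∑ i, C i * u i ^ 2 < 1} := by
    ext u
    rw [Set.mem_smul_set_iff_inv_smul_mem₀ hs.ne']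
    simp only [mem_ofPred_eq, Pi.smul_apply, smul_eq_mul]
    have : ∀ i, C i * ((Real.sqrt T)⁻¹ * u i) ^ 2 = (C i * u i ^ 2) / T := by
      intro i
      rw [mul_pow, inv_pow, hs2]
      field_simp
    simp_rw [this]
    rw [← Finset.sum_div, div_lt_one hT]
  have h5 : |Real.sqrt T ^ r| = T ^ k := by
    have : Real.sqrt T ^ r = (Real.sqrt T ^ 2) ^ k := by rw [← pow_mul, hr]
    rw [this, hs2, abs_of_pos (by positivity)]
  rw [h1, Measure.addHaar_smul, Module.finrank_fin_fun, h5, mul_comm,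
    ENNReal.ofReal_mul ENNReal.toReal_nonneg, ENNReal.ofReal_toReal hfin]

theorem lgood_fq (k : ℕ) {r : ℕ} (hr : r = 2 * k) :
    LGood (volume : Measure (W r)) (Dq r) (fq r 1) (sq r 1) where
  isOpen := isOpen_Dq r
  convex := convex_Dq r
  nonempty := ⟨0, zero_mem_Dq r⟩
  smooth := (contDiff_fq r 1).contDiffOn
  pos := by
    intro a ha x hx hne
    rw [fq_sub]
    rcases (Bq_nonneg r 1 a x one_pos one_lt_two ha).lt_or_eq with h | h
    · exact h
    · exact absurd (eq_of_Bq one_pos one_lt_two ha h.symm) hne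
  cpt := by
    intro a ha
    obtain ⟨ε, hε, hsub⟩ := Metric.nhds_basis_closedBall.mem_iff.mp ((isOpen_Dq r).mem_nhds ha)
    obtain ⟨T, hT, hT'⟩ := close r 1 a ε one_pos one_lt_two ha hε
    refine ⟨T, hT, Metric.closedBall a ε, isCompact_closedBall _ _, hsub, ?_⟩
    rintro x ⟨-, hx⟩
    rw [fq_sub] at hx
    exact hT' x hx
  meas := by
    intro a ha T
    have h1 : {x | x ∈ Dq r ∧ fq r 1 x - fq r 1 a - sq r 1 a (x - a) < T} =
        Dq r ∩ (Bq r 1 a) ⁻¹' Iio T := by
      ext x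
      rw [mem_ofPred_eq, fq_sub]
      rfl
    rw [h1]
    exact (isOpen_Dq r).measurableSet.inter ((continuous_Bq r 1 a).measurable measurableSet_Iio)
  vol := by
    intro a ha
    obtain ⟨ε, hε, hsub⟩ := Metric.nhds_basis_closedBall.mem_iff.mp ((isOpen_Dq r).mem_nhds ha)
    obtain ⟨T₀, hT₀, hT'⟩ := close r 1 a ε one_pos one_lt_two ha hε
    obtain ⟨C, hC, hI⟩ := exists_coeff r 1 a one_pos one_lt_two ha
    obtain ⟨K, hK, hvol⟩ := vol_quad k hr C hC
    refine ⟨Polynomial.C K * Polynomial.X ^ k, T₀, hT₀, fun T hT hTT => ?_⟩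
    have h1 : {x | x ∈ Dq r ∧ fq r 1 x - fq r 1 a - sq r 1 a (x - a) < T} =
        (Bq r 1 a) ⁻¹' Iio T := by
      ext x
      rw [mem_ofPred_eq, fq_sub]
      constructor
      · intro h; exact h.2
      · intro h
        have h : Bq r 1 a x < T := h
        exact ⟨hsub (hT' x (h.trans hTT).le), h⟩
    have h2 := hI ((Iio T).indicator fun _ => 1) (Measurable.indicator measurable_const
      measurableSet_Iio)
    have h3 : ∫⁻ x : W r, (Iio T).indicator (fun _ => (1:ℝ≥0∞)) (Bq r 1 a x) =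
        volume ((Bq r 1 a) ⁻¹' Iio T) := by
      have : ∀ x : W r, (Iio T).indicator (fun _ => (1:ℝ≥0∞)) (Bq r 1 a x) =
        ((Bq r 1 a) ⁻¹' Iio T).indicator (fun _ => 1) x := fun x => rfl
      simp_rw [this]
      rw [lintegral_indicator ((continuous_Bq r 1 a).measurable measurableSet_Iio)]
      simp
    have h4 : ∫⁻ u : W r, (Iio T).indicator (fun _ => (1:ℝ≥0∞)) (∑ i, C i * u i ^ 2) =
        volume {u : W r | ∑ i, C i * u i ^ 2 < T} := by
      have : ∀ u : W r, (Iio T).indicator (fun _ => (1:ℝ≥0∞)) (∑ i, C i * u i ^ 2) =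
        {u : W r | ∑ i, C i * u i ^ 2 < T}.indicator (fun _ => 1) u := fun x => rfl
      simp_rw [this]
      rw [lintegral_indicator (measurableSet_lt (by fun_prop) measurable_const)]
      simp
    rw [h1, ← h3, h2, h4, hvol T hT]
    simp

end Pool.Agent.Y106.LPI
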